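import Pool.Agent.R917.GL.Mod

set_option autoImplicit false
set_option linter.unusedSectionVars false
set_option linter.unusedSimpArgs false

/-!
# Abelian varieties whose homology is a sum of planes, in terms of matrices
-/

open Module Function TensorProduct Matrix

noncomputable section

namespace Pool.Agent.R917.GL

open Pool.Agent.Y102 Pool.Agent.W516.DR Pool.Agent.H204R3.GP Pool.Agent.W516.KC
  Pool.Agent.H204R3.SP Pool.Agent.TH119.MX Pool.Agent.R917.OM Pool.Agent.Y102.AbVar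

/-- A basis of the image of a projector of rank two. -/
theorem exists_bpF {F W : Type} [Field F] [AddCommGroup W] [Module F W]
    [FiniteDimensional F W] {P : Module.End F W} (h1 : P * P = P)
    (h2 : finrank F (LinearMap.range P) = 2) :
    ∃ (b : (Fin 2 → F) →ₗ[F] W) (p : W →ₗ[F] (Fin 2 → F)), (∀ v, p (b v) = v) ∧
      b ∘ₗ p = P := by
  let e : (Fin 2 → F) ≃ₗ[F] LinearMap.range P := LinearEquiv.ofFinrankEq _ _ (by
    rw [h2]
    simp)
  refine ⟨(LinearMap.range P).subtype ∘ₗ e.toLinearMap, e.symm.toLinearMap ∘ₗ P.rangeRestrict,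
    fun v => ?_, ?_⟩
  · have h3 : P.rangeRestrict ((LinearMap.range P).subtype (e v)) = e v := by
      apply Subtype.ext
      obtain ⟨w, hw⟩ := (e v).2
      change P (e v).1 = (e v).1
      rw [← hw]
      exact congrArg (fun T : Module.End F W => T w) h1
    change e.symm (P.rangeRestrict ((LinearMap.range P).subtype (e v))) = v
    rw [h3, LinearEquiv.symm_apply_apply]
  · refine LinearMap.ext fun v => ?_
    change ((e (e.symm (P.rangeRestrict v))) : W) = P v
    rw [LinearEquiv.apply_symm_apply]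
    rfl

theorem tz_of_trace {x : M2} (h : Matrix.trace x = 0) : tz x := by
  rw [Matrix.trace_fin_two] at h
  unfold tz
  linear_combination h

variable {g : ℕ} {A : AbVar g}

/-- **The data for the centre, from projectors.** -/
theorem exists_CMS_of {K : Type} [Fintype K] {P : K → EC A} (hmem : ∀ k, P k ∈ cx A.EA)
    (hid : ∀ k, P k * P k = P k) (hsum : ∑ k, P k = 1)
    (htr : ∀ k, LinearMap.trace ℂ (ℂ ⊗[ℚ] A.H1) (P k) = 2)
    (hty : ∀ k, (∃ P₀ : Module.End ℚ A.H1, P k = P₀.baseChange ℂ) ∨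
      ((∀ X ∈ A.NA, LinearMap.trace ℂ (ℂ ⊗[ℚ] A.H1) (X.baseChange ℂ * P k) = 0) ∧
        ∀ T ∈ A.EA, ∃ z : ℂ, P k * T.baseChange ℂ * P k = z • P k))
    (hiso : ∀ i j (P₀ P₁ : Module.End ℚ A.H1), i ≠ j → P i = P₀.baseChange ℂ →
      P j = P₁.baseChange ℂ → (∃ T ∈ A.EA, P₁ * T * P₀ ≠ 0) ∨
        ∀ T : Module.End ℚ A.H1, (∃ F : (Fin g → ℂ) →ₗ[ℂ] (Fin g → ℂ), ∀ w,
          F (A.per w) = A.per (T w)) → P₁ * T * P₀ = 0) :
    ∃ (M : Type) (_ : Finite M), Nonempty (EC.CMS A M) := by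
  classical
  -- the rational projectors
  have hr1 : ∀ k (P₀ : Module.End ℚ A.H1), P k = P₀.baseChange ℂ → P₀ ∈ A.EA := fun k P₀ h =>
    mem_of_bc (h ▸ hmem k)
  have hr2 : ∀ k (P₀ : Module.End ℚ A.H1), P k = P₀.baseChange ℂ → P₀ * P₀ = P₀ := by
    intro k P₀ h
    have h1 := hid k
    rw [h, ← bc_mul] at h1
    rw [← sub_eq_zero]
    apply bc_zero_iff
    rw [LinearMap.baseChange_sub, h1, sub_self]
  have hr3 : ∀ k (P₀ : Module.End ℚ A.H1), P k = P₀.baseChange ℂ →
      finrank ℚ (LinearMap.range P₀) = 2 := by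
    intro k P₀ h
    refine EC.finrank_of_trace (hr2 k P₀ h) ?_
    have h1 := htr k
    rw [h, LinearMap.trace_baseChange] at h1
    have h2 : ((LinearMap.trace ℚ A.H1 P₀ : ℚ) : ℂ) = ((2 : ℚ) : ℂ) := by
      rw [Rat.cast_ofNat]
      exact h1
    exact_mod_cast h2
  have hbp := fun k => exists_bpF (hid k) (EC.finrank_of_trace (hid k) (htr k))
  choose b p hpb hbp using hbp
  have hPb : ∀ k v, P k (b k v) = b k v := fun k v => by
    rw [← hbp k, LinearMap.comp_apply, hpb]
  have hbp1 : ∀ k w, b k (p k w) = P k w := fun k w =>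
    congrArg (fun T : (ℂ ⊗[ℚ] A.H1) →ₗ[ℂ] (ℂ ⊗[ℚ] A.H1) => T w) (hbp k)
  let N : Set K := {k | ∀ T ∈ A.EA, ∃ z : ℂ, P k * T.baseChange ℂ * P k = z • P k}
  have hnN : ∀ k, k ∉ N → (∃ P₀ : Module.End ℚ A.H1, P k = P₀.baseChange ℂ) := by
    intro k hk
    rcases hty k with h | ⟨-, h⟩
    · exact h
    · exact absurd h hk
  have hns : ∀ k, k ∉ N → ∀ P₀ : Module.End ℚ A.H1, P k = P₀.baseChange ℂ →
      ∃ T ∈ A.EA, ¬ ∃ z : ℚ, P₀ * T * P₀ = z • P₀ := by
    intro k hk P₀ h
    by_contra hcon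
    push Not at hcon
    apply hk
    intro T hT
    obtain ⟨z, hz⟩ := hcon T hT
    refine ⟨z, ?_⟩
    rw [h, ← bc_mul, ← bc_mul, hz, LinearMap.baseChange_smul, Rat.cast_smul_eq_qsmul]
  let S : CP A K :=
    { b := b
      p := p
      pb := hpb
      mem := fun k => by
        rw [hbp]
        exact hmem k
      N := N
      sc := by
        intro k hk T hT
        obtain ⟨z, hz⟩ := hk T hT
        refine ⟨z, fun v => ?_⟩
        have h1 := congrArg (fun Z : EC A => p k (Z (b k v))) hz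
        simp only [Module.End.mul_apply, LinearMap.smul_apply, map_smul] at h1
        rw [hPb, hpb] at h1
        rw [← hbp1, hpb] at h1
        exact h1
      tzN := by
        intro k hk X hX
        apply tz_of_trace
        rw [EC.trace_toMatrix, hbp]
        rcases hty k with ⟨P₀, h⟩ | ⟨h, -⟩
        · rw [h, ← bc_mul, LinearMap.trace_baseChange, EC.trace_rat (hr1 k P₀ h) (hr2 k P₀ h)
            (hr3 k P₀ h) hX, map_zero]
        · exact h X hX
      com := by
        intro k hk X hX Y hY v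
        obtain ⟨P₀, h⟩ := hnN k hk
        obtain ⟨T, hT, hT0⟩ := hns k hk P₀ h
        have h1 := EC.rat_com (hr1 k P₀ h) (hr2 k P₀ h) (hr3 k P₀ h) hT hT0 hX hY
        have h2 := congrArg (fun Z : Module.End ℚ A.H1 => (Z.baseChange ℂ : EC A) (b k v)) h1
        rw [bc_mul, Module.End.mul_apply, ← h, hPb, LinearMap.baseChange_zero,
          LinearMap.zero_apply] at h2
        exact h2 }
  let Q : K → Module.End ℚ A.H1 := fun k =>
    if h : ∃ P₀ : Module.End ℚ A.H1, P k = P₀.baseChange ℂ then h.choose else 0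
  have hQ : ∀ k, k ∉ N → P k = (Q k).baseChange ℂ := by
    intro k hk
    have h := hnN k hk
    change P k = (dite _ _ _ : Module.End ℚ A.H1).baseChange ℂ
    rw [dif_pos h]
    exact h.choose_spec
  have R : S.Rt Q :=
    { eq := fun k hk => by
        have h1 : S.pr k = P k := hbp k
        rw [h1]
        exact hQ k hk
      mem := fun k hk => hr1 k _ (hQ k hk)
      idem := fun k hk => hr2 k _ (hQ k hk)
      rk := fun k hk => hr3 k _ (hQ k hk)
      nsc := fun k hk => hns k hk _ (hQ k hk)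
      iso := fun i j hi hj hij => hiso i j _ _ hij (hQ i hi) (hQ j hj) }
  refine CP.exists_CMS R ?_
  rw [← hsum]
  exact Finset.sum_congr rfl fun k _ => hbp k

/-! ### Matrices -/

/-- the complex matrix of the polarization -/
def omM (A : AbVar g) : Matrix (Fin (2 * g)) (Fin (2 * g)) ℂ :=
  Matrix.of fun i j => ((A.om (Pi.single i 1) (Pi.single j 1) : ℚ) : ℂ)

/-- the rational matrix of the polarization -/
def omQ (A : AbVar g) : Matrix (Fin (2 * g)) (Fin (2 * g)) ℚ :=
  Matrix.of fun i j => A.om (Pi.single i 1) (Pi.single j 1)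

theorem omM_eq : omM A = (omQ A).map (algebraMap ℚ ℂ) := rfl

theorem omQ_det : (omQ A).det ≠ 0 := by
  intro h0
  obtain ⟨v, hv, h1⟩ := Matrix.exists_mulVec_eq_zero_iff.2 h0
  apply hv
  have h2 : ∀ i, A.om (Pi.single i 1) v = 0 := by
    intro i
    have h3 := congrFun h1 i
    simp only [Matrix.mulVec, dotProduct, omQ, Matrix.of_apply, Pi.zero_apply] at h3
    have h4 : v = ∑ j, v j • (Pi.single j 1 : Fin (2 * g) → ℚ) := by
      ext k
      simp [Finset.sum_apply, Pi.single_apply]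
    rw [h4, map_sum, ← h3]
    refine Finset.sum_congr rfl fun j _ => ?_
    rw [map_smul, smul_eq_mul, mul_comm]
  have h5 : ∀ w : A.H1, A.om v w = 0 := by
    intro w
    have h4 : w = ∑ j, w j • (Pi.single j 1 : Fin (2 * g) → ℚ) := by
      ext k
      simp [Finset.sum_apply, Pi.single_apply]
    rw [h4, map_sum]
    refine Finset.sum_eq_zero fun j _ => ?_
    rw [map_smul, A.om_anti, h2, neg_zero, smul_zero]
  exact A.om_nondeg h5

theorem exists_inv : ∃ E' : Matrix (Fin (2 * g)) (Fin (2 * g)) ℂ, omM A * E' = 1 := by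
  have h1 : (omM A).det ≠ 0 := by
    rw [omM_eq, ← RingHom.mapMatrix_apply, ← RingHom.map_det]
    exact (map_ne_zero_iff _ (algebraMap ℚ ℂ).injective).2 omQ_det
  exact ⟨(omM A)⁻¹, Matrix.mul_nonsing_inv _ (isUnit_iff_ne_zero.2 h1)⟩

theorem toC_skew {X : Module.End ℚ A.H1} (hX : X ∈ A.NA) :
    (toC X)ᵀ * omM A = -(omM A * toC X) := by
  ext i j
  have h1 := A.NA_skew hX (Pi.single i 1) (Pi.single j 1)
  have h4 : ∀ w : A.H1, w = ∑ j, w j • (Pi.single j 1 : Fin (2 * g) → ℚ) := by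
    intro w
    ext k
    simp [Finset.sum_apply, Pi.single_apply]
  have e1 : A.om (X (Pi.single i 1)) (Pi.single j 1) =
      ∑ k, X (Pi.single i 1) k * A.om (Pi.single k 1) (Pi.single j 1) := by
    conv_lhs => rw [h4 (X (Pi.single i 1))]
    rw [map_sum, LinearMap.sum_apply]
    refine Finset.sum_congr rfl fun k _ => ?_
    rw [map_smul, LinearMap.smul_apply, smul_eq_mul]
  have e2 : A.om (Pi.single i 1) (X (Pi.single j 1)) =
      ∑ k, A.om (Pi.single i 1) (Pi.single k 1) * X (Pi.single j 1) k := by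
    conv_lhs => rw [h4 (X (Pi.single j 1))]
    rw [map_sum]
    refine Finset.sum_congr rfl fun k _ => ?_
    rw [map_smul, smul_eq_mul, mul_comm]
  rw [e1, e2] at h1
  have h2 := congrArg (fun q : ℚ => (q : ℂ)) h1
  simp only [Rat.cast_add, Rat.cast_sum, Rat.cast_mul, Rat.cast_zero] at h2
  rw [Matrix.neg_apply, Matrix.mul_apply, Matrix.mul_apply]
  exact eq_neg_of_add_eq_zero_left h2

theorem trace_matE {n : ℕ} (M : Matrix (Fin n) (Fin n) ℂ) :
    LinearMap.trace ℂ (ℂ ⊗[ℚ] (Fin n → ℚ)) (matE n M) = Matrix.trace M := by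
  rw [LinearMap.trace_eq_matrix_trace ℂ (Algebra.TensorProduct.basis ℂ (Pi.basisFun ℚ (Fin n)))]
  congr 1
  exact (LinearMap.toMatrixAlgEquiv
    (Algebra.TensorProduct.basis ℂ (Pi.basisFun ℚ (Fin n)))).apply_symm_apply M

/-- Symmetric projectors. -/
theorem trace_sym {M : Matrix (Fin (2 * g)) (Fin (2 * g)) ℂ} (hM : Mᵀ * omM A = omM A * M)
    {X : Module.End ℚ A.H1} (hX : X ∈ A.NA) (hc : toC X * M = M * toC X) :
    Matrix.trace (toC X * M) = 0 := by
  obtain ⟨E', hE⟩ := exists_inv (A := A)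
  have hE2 : E' * omM A = 1 := mul_eq_one_comm.1 hE
  have h1 : (toC X * M)ᵀ * omM A = -(omM A * (toC X * M)) := by
    rw [Matrix.transpose_mul, Matrix.mul_assoc, toC_skew hX, Matrix.mul_neg, ← Matrix.mul_assoc,
      hM, Matrix.mul_assoc, ← hc]
  have h2 : toC X * M = -(E' * ((toC X * M)ᵀ * omM A)) := by
    rw [h1, Matrix.mul_neg, neg_neg, ← Matrix.mul_assoc, hE2, Matrix.one_mul]
  have h3 : Matrix.trace (toC X * M) = -Matrix.trace (toC X * M) := by
    conv_lhs => rw [h2]
    rw [Matrix.trace_neg, Matrix.trace_mul_comm, Matrix.mul_assoc, hE, Matrix.mul_one,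
      Matrix.trace_transpose]
  linear_combination (1 / 2 : ℂ) * h3

end Pool.Agent.R917.GL
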