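import Pool.Agent.R917.GL.Pl

set_option autoImplicit false
set_option linter.unusedSectionVars false
set_option linter.unusedSimpArgs false

/-!
# Abelian varieties whose Hodge group has a rigid derived group and a centre of elliptic type
-/

open Module Function TensorProduct Matrix

noncomputable section

namespace Pool.Agent.R917.EC

open Pool.Agent.Y102 Pool.Agent.W516.DR Pool.Agent.H204R3.GP Pool.Agent.W516.KC
  Pool.Agent.H204R3.SP Pool.Agent.TH119.MX Pool.Agent.R917.OM Pool.Agent.Y102.AbVar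

open EP (Cm mat_ext v0 v0_ne)

variable {g : ℕ} {A : AbVar g} {n s : ℕ}

theorem full_NA : A.Full A.NA :=
  Pool.Agent.R917.full_of_X0 A le_rfl (fun _ hX _ hY => A.NA_bracket hX hY) fun D lam =>
    A.LA_le_NA (by
      rw [AbVar.LA_eq]
      exact X0_mem A.basis AbVar.tau_ne D lam)

theorem Cm_one : Cm (1 : Module.End ℚ A.H1) := fun Q _ => by rw [one_mul, mul_one]

theorem Cm_smul {X : Module.End ℚ A.H1} (hX : Cm X) (a : ℚ) : Cm (a • X) := fun Q hQ => by
  rw [smul_mul_assoc, mul_smul_comm, hX Q hQ]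

theorem Cm_sub {X Y : Module.End ℚ A.H1} (hX : Cm X) (hY : Cm Y) : Cm (X - Y) := fun Q hQ => by
  rw [sub_mul, mul_sub, hX Q hQ, hY Q hQ]

/-- The derived algebra is rigid, and the centre acts faithfully on elliptic curves with complex
multiplication. -/
structure CMS (A : AbVar g) (M : Type) extends PL A M where
  D : M → M2
  tr : ∀ c, tz (D c)
  ne : ∀ c, D c ≠ 0
  memD : ∀ c, toPL.up c c (D c) ∈ A.EA
  rig : ∀ 𝔥, A.Full 𝔥 → ∀ X ∈ A.NA, ∀ Y ∈ A.NA, X * Y - Y * X ∈ 𝔥
  cen : ∀ Z ∈ A.NA, (∀ X ∈ A.NA, Z * X = X * Z) → ∀ Y, Cm Y →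
    (∀ c v, p c ((Z * Y) (b c v)) = 0) → Z * Y = 0

namespace CMS

variable {M : Type} [Finite M] (S : CMS A M)

theorem xi_zero_of {X : Module.End ℚ A.H1} (h : S.xi X = 0) (c : M) (v : Fin 2 → ℚ) :
    S.p c (X (S.b c v)) = 0 := by
  rw [← S.xi_mulVec, h]
  exact Matrix.zero_mulVec v

theorem cen' {Z Z' : Module.End ℚ A.H1} (hZ : Z ∈ A.NA) (hZc : ∀ X ∈ A.NA, Z * X = X * Z)
    (hZ' : Z' ∈ A.NA) (hZc' : ∀ X ∈ A.NA, Z' * X = X * Z') (h : S.xi Z = S.xi Z') : Z = Z' := by
  have h1 := S.cen (Z - Z') (A.NA.sub_mem hZ hZ') (fun X hX => by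
    rw [sub_mul, mul_sub, hZc X hX, hZc' X hX]) 1 Cm_one (by
    rw [mul_one]
    exact S.xi_zero_of (by rw [map_sub, h, sub_self]))
  rw [mul_one] at h1
  exact sub_eq_zero.1 h1

include S in
/-- **The lifts.** -/
theorem lifts {d : Dt g n s} {H : Set (Matrix (RI g n s) (RI g n s) ℂ)} (hpt : PtM A d H) :
    (∀ X ∈ A.NA, ∃ L ∈ gg A n s H, L.1 = X ∧ L.2.1 = 0) ∧
      ∃ L ∈ gg A n s H, L.1 = 0 ∧ L.2.1 = 1 := by
  classical
  have := Fintype.ofFinite M
  have h : Lg (gg A n s H) d := gg_Lg hpt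
  have hder : ∀ X ∈ der A.NA, ∃ L ∈ gg A n s H, L.1 = X ∧ L.2.1 = 0 := by
    intro X hX
    refine der_lift h ?_
    have h1 : der A.NA ≤ aa (gg A n s H) := by
      unfold der
      rw [Submodule.span_le]
      rintro _ ⟨P, hP, Q, hQ, rfl⟩
      exact S.rig _ h.full P hP Q hQ
    have h2 := full_NA.perfect hX
    unfold der
    refine Submodule.span_mono ?_ h2
    rintro _ ⟨P, hP, Q, hQ, rfl⟩
    exact ⟨P, h1 hP, Q, h1 hQ, rfl⟩
  have T : ∀ c : M, S.CMd c := fun c => (S.exists_CMd (S.tr c) (S.ne c) (S.memD c)).some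
  -- the coordinates
  have hco : ∀ X ∈ A.NA, ∀ c : M, ∃ a : ℚ, S.xi X c = a • (T c).D := fun X hX c =>
    comm_of_sp (T c).tr (S.xi_tz hX c) (T c).ne (S.lb_of_up (Cm_of_NA hX) (T c).mem)
  have hder0 : ∀ X ∈ der A.NA, S.xi X = 0 := by
    intro X hX
    unfold der at hX
    induction hX using Submodule.span_induction with
    | mem X hX =>
      obtain ⟨P, hP, Q, hQ, rfl⟩ := hX
      funext c
      rw [S.xi_lb (Cm_of_NA hP) (Cm_of_NA hQ)]
      obtain ⟨a, ha⟩ := hco P hP c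
      obtain ⟨b, hb⟩ := hco Q hQ c
      rw [ha, hb, lb_smul_left, lb_smul_right]
      unfold lb
      rw [sub_self, smul_zero, smul_zero]
      rfl
    | zero => rw [map_zero]
    | add a b _ _ ha hb => rw [map_add, ha, hb, add_zero]
    | smul c a _ ha => rw [map_smul, ha, smul_zero]
  -- the elements `Z`
  have hZ : ∀ c : M, ∃ Z ∈ A.NA, (∀ X ∈ A.NA, Z * X = X * Z) ∧
      S.xi Z = Pi.single c (T c).D := by
    intro c
    have hli : LinearIndependent ℚ (fun c : M => (T c).del) :=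
      li_delta (fun c => (T c).del_ne) (fun c => ⟨_, (T c).del_sq⟩)
        (fun c d hcd => (T c).indep (T d) hcd)
    have hli2 : LinearIndependent ℚ (fun c : M => (T c).ρ) := by
      rw [Fintype.linearIndependent_iff] at hli ⊢
      intro a ha c
      have h1 := hli (fun c => a c / (T c).q) (by
        have h2 := congrArg (fun r : ℝ => (-Complex.I) * (r : ℂ)) ha
        simp only [Complex.ofReal_sum, Complex.ofReal_zero, mul_zero, Finset.mul_sum] at h2
        rw [← h2]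
        refine Finset.sum_congr rfl fun c _ => ?_
        have h3 := (T c).del_sq
        have h4 := (T c).rho_ne
        have h5 := (T c).del_ne
        have h6 : (T c).del * (T c).ρ = Complex.I := by
          unfold PL.CMd.del
          rw [div_mul_cancel₀ _ h4]
        have h7 : ((T c).q : ℂ) ≠ 0 := by
          rw [← h3]
          exact pow_ne_zero 2 h5
        rw [Algebra.smul_def, Algebra.smul_def]
        change ((a c / (T c).q : ℚ) : ℂ) * (T c).del = (-Complex.I) * ((((a c : ℚ) : ℝ) *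
          (T c).ρ : ℝ) : ℂ)
        push_cast
        rw [div_mul_eq_mul_div, div_eq_iff h7, ← h3]
        have h8 : Complex.I * Complex.I = -1 := Complex.I_mul_I
        linear_combination (Complex.I * (a c : ℂ) * (T c).del) * h6 +
          ((a c : ℂ) * (T c).del) * h8)
      have h7 : ((T c).q : ℂ) ≠ 0 := by
        rw [← (T c).del_sq]
        exact pow_ne_zero 2 (T c).del_ne
      have h8 : (T c).q ≠ 0 := by exact_mod_cast h7
      exact (div_eq_zero_iff.1 (h1 c)).resolve_right h8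
    obtain ⟨f, hf⟩ := exists_lin hli2 (Pi.single c (1 : ℚ))
    have hJ := A.MA_le_NA (A.J_mem f)
    obtain ⟨Z, hZ, e, he, h1, h2⟩ := full_NA.dec hJ
    refine ⟨Z, hZ, h2, ?_⟩
    have h3 : S.xi Z = S.xi (A.cmpE f JJ) := by
      rw [h1, map_add, hder0 e he, add_zero]
    rw [h3]
    funext e
    rw [(T e).J f, hf e]
    by_cases hec : e = c
    · subst hec
      rw [Pi.single_eq_same, Pi.single_eq_same, one_smul]
    · rw [Pi.single_eq_of_ne hec, Pi.single_eq_of_ne hec, zero_smul]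
  choose Z hZ1 hZc hZ2 using hZ
  have hZC : ∀ c, Cm (Z c) := fun c => Cm_of_NA (hZ1 c)
  have hZZ : ∀ c d, c ≠ d → Z c * Z d = 0 := by
    intro c d hcd
    refine S.cen (Z c) (hZ1 c) (hZc c) (Z d) (hZC d) (S.xi_zero_of ?_)
    funext e
    rw [S.xi_mul (hZC c) (hZC d), hZ2, hZ2, Pi.zero_apply]
    by_cases hec : e = c
    · rw [Pi.single_eq_of_ne (i := d) (fun e' => hcd (hec.symm.trans e')), mul_zero]
    · rw [Pi.single_eq_of_ne hec, zero_mul]
  have hZ3 : ∀ c, Z c * Z c * Z c = (T c).q • Z c := by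
    intro c
    have hY : Cm (Z c * Z c - (T c).q • (1 : Module.End ℚ A.H1)) :=
      Cm_sub (EP.Cm.mul (hZC c) (hZC c)) (Cm_smul Cm_one _)
    have h1 := S.cen (Z c) (hZ1 c) (hZc c) _ hY (S.xi_zero_of (by
      rw [mul_sub, mul_smul_comm, mul_one, map_sub, map_smul, sub_eq_zero]
      funext e
      rw [S.xi_mul (hZC c) (EP.Cm.mul (hZC c) (hZC c)), S.xi_mul (hZC c) (hZC c),
        Pi.smul_apply, hZ2]
      by_cases hec : e = c
      · subst hec
        rw [Pi.single_eq_same, (T e).DD, mul_smul_comm, mul_one]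
      · rw [Pi.single_eq_of_ne hec, zero_mul, smul_zero]))
    rw [mul_sub, mul_smul_comm, mul_one, sub_eq_zero] at h1
    rw [mul_assoc]
    exact h1
  have hsum : ∀ (a : M → ℚ), S.xi (∑ c, a c • Z c) = fun e => a e • (T e).D := by
    intro a
    funext e
    rw [map_sum, Finset.sum_apply, Finset.sum_eq_single e]
    · rw [map_smul, Pi.smul_apply, hZ2, Pi.single_eq_same]
    · intro c _ hc
      rw [map_smul, Pi.smul_apply, hZ2, Pi.single_eq_of_ne (Ne.symm hc), smul_zero]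
    · intro h
      exact absurd (Finset.mem_univ _) h
  have hNA : ∀ a : M → ℚ, (∑ c, a c • Z c) ∈ A.NA := fun a =>
    Submodule.sum_mem _ fun c _ => A.NA.smul_mem _ (hZ1 c)
  have hNAc : ∀ a : M → ℚ, ∀ X ∈ A.NA, (∑ c, a c • Z c) * X = X * ∑ c, a c • Z c := by
    intro a X hX
    rw [Finset.sum_mul, Finset.mul_sum]
    exact Finset.sum_congr rfl fun c _ => by
      rw [smul_mul_assoc, mul_smul_comm, hZc c X hX]
  -- the subspace
  let U : Submodule ℚ ((M → ℚ) × ℚ) :=
    { carrier := {v | ∃ L ∈ gg A n s H, L.1 = ∑ c, v.1 c • Z c ∧ L.2.1 = v.2}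
      zero_mem' := ⟨0, (gg A n s H).zero_mem, by simp, rfl⟩
      add_mem' := by
        rintro v w ⟨L, hL, h1, h2⟩ ⟨L', hL', h1', h2'⟩
        refine ⟨L + L', (gg A n s H).add_mem hL hL', ?_, ?_⟩
        · rw [Prod.fst_add, h1, h1', ← Finset.sum_add_distrib]
          refine Finset.sum_congr rfl fun c _ => ?_
          rw [Prod.fst_add, Pi.add_apply, add_smul]
        · rw [Prod.snd_add, Prod.fst_add, h2, h2', Prod.snd_add]
      smul_mem' := by
        rintro t v ⟨L, hL, h1, h2⟩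
        refine ⟨t • L, (gg A n s H).smul_mem t hL, ?_, ?_⟩
        · rw [Prod.smul_fst, h1, Finset.smul_sum]
          refine Finset.sum_congr rfl fun c _ => ?_
          rw [Prod.smul_fst, Pi.smul_apply, smul_assoc]
        · rw [Prod.smul_snd, Prod.smul_fst, h2, Prod.smul_snd] }
  have hmem : ∀ v, v ∈ U ↔ ∃ L ∈ gg A n s H, L.1 = ∑ c, v.1 c • Z c ∧ L.2.1 = v.2 := fun _ =>
    Iff.rfl
  have hcc : ∀ X ∈ A.NA, (∀ Y ∈ A.NA, X * Y = Y * X) → ∀ a : M → ℚ,
      (∀ c : M, S.xi X c = a c • (T c).D) → X = ∑ c, a c • Z c := by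
    intro X hX hXc a ha
    refine S.cen' hX hXc (hNA a) (hNAc a) ?_
    rw [hsum]
    exact funext ha
  have hin : ∀ L ∈ gg A n s H, (∀ Y ∈ A.NA, L.1 * Y = Y * L.1) → ∀ a : M → ℚ,
      (∀ c : M, S.xi L.1 c = a c • (T c).D) → ((a, L.2.1) : (M → ℚ) × ℚ) ∈ U :=
    fun L hL h1 a h2 => ⟨L, hL, hcc L.1 (h.na L hL) h1 a h2, rfl⟩
  have hUtop : U = ⊤ := by
    refine chr_top (δ := fun c : M => (T c).del) (fun c => (T c).del_ne)
      (fun c => ⟨_, (T c).del_sq⟩) (fun c => (T c).irr)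
      (fun c d hcd => (T c).indep (T d) hcd) ?_ ?_ ?_
    · rintro σ v ⟨L, hL, h1, h2⟩ hv
      obtain ⟨L', e1, e2, e3⟩ := replica (Z := Z) (δ := fun c : M => (T c).del)
        (q := fun c => (T c).q) hpt.grp (fun c => (T c).del_sq)
        (fun c => (T c).irr) hZZ hZ3 (a := v.1) (by rw [h2]; exact hv) h1 hL.2 σ
      exact ⟨L', ⟨by rw [e2]; exact hNA _, e1⟩, e2, by rw [e3, h2]⟩
    · obtain ⟨L, hL, h1, h2⟩ := exists_central h
      choose a ha using hco _ (h.na L hL)
      refine ⟨(a, L.2.1), hin L hL (fun Y hY => ?_) a ha, h1⟩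
      exact (h.full.comm L.1 (by
        rintro _ ⟨L', hL', rfl⟩
        exact (h2 L' hL').symm) Y hY).symm
    · intro c
      obtain ⟨L, hL, h1⟩ : ∃ L ∈ gg A n s H, S.xi L.1 c ≠ 0 := by
        by_contra hcon
        push Not at hcon
        have h1 : S.up c c E ∈ A.EA := S.up_mem h.full (by
          rintro _ ⟨L, hL, rfl⟩
          change E * S.xi L.1 c = S.xi L.1 c * E
          rw [hcon L hL, mul_zero, zero_mul])
        exact E_ne (S.line h1 v0_ne (by
          ext i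
          fin_cases i <;> simp [E, v0]))
      obtain ⟨Z', hZ', e, he, h2, h3⟩ := full_NA.dec (h.na L hL)
      obtain ⟨L', hL', h4, h5⟩ := hder e he
      have hL2 := (gg A n s H).sub_mem hL hL'
      have h6 : (L - L').1 = Z' := by
        rw [Prod.fst_sub, h4]
        exact sub_eq_iff_eq_add.2 h2
      choose a ha using hco _ (h.na _ hL2)
      refine ⟨(a, (L - L').2.1), hin _ hL2 (by rw [h6]; exact h3) a ha, fun h0 => ?_⟩
      have h7 := ha c
      change a c = 0 at h0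
      rw [h0, zero_smul, Prod.fst_sub, map_sub, Pi.sub_apply, h4, hder0 e he, Pi.zero_apply,
        sub_zero] at h7
      exact h1 h7
  constructor
  · intro X hX
    obtain ⟨Z', hZ', e, he, h2, h3⟩ := full_NA.dec hX
    obtain ⟨L, hL, h4, h5⟩ := hder e he
    choose a ha using hco Z' hZ'
    have h6 : ((a, 0) : (M → ℚ) × ℚ) ∈ U := by rw [hUtop]; exact Submodule.mem_top
    obtain ⟨L', hL', h7, h8⟩ := (hmem _).1 h6
    refine ⟨L' + L, (gg A n s H).add_mem hL' hL, ?_, ?_⟩
    · rw [Prod.fst_add, h7, h4, h2, hcc Z' hZ' h3 a ha]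
    · rw [Prod.snd_add, Prod.fst_add, h5, h8, add_zero]
  · have h3 : ((0, 1) : (M → ℚ) × ℚ) ∈ U := by rw [hUtop]; exact Submodule.mem_top
    obtain ⟨L', hL', h4, h5⟩ := (hmem _).1 h3
    refine ⟨L', hL', ?_, h5⟩
    rw [h4]
    exact Finset.sum_eq_zero fun c _ => by
      change (0 : ℚ) • Z c = 0
      rw [zero_smul]

end CMS

open Pool.Agent.R917.BX in
/-- **The Hodge structure of the 1-motive is in the Lie algebra of the group.** -/
theorem hodge_stab4 {A : AbVarG g} {d : Dt g n s} {H : Set (Matrix (RI g n s) (RI g n s) ℂ)}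
    (hpt : PtM A.toAbVar d H) (hd : Good A d)
    {K₁ : IntermediateField ℚ ℂ} [FiniteDimensional ℚ K₁]
    (hu : ∀ p (m : ℕ), IsRat A.toAbVar K₁ (m • pt d p))
    {M : Type} [Finite M] (S : CMS A.toAbVar M) :
    (∀ k, Stab H k (XJ A.toAbVar d)) ∧ ∀ k, Stab H k (XW A.toAbVar d) := by
  have hLg := gg_Lg hpt
  obtain ⟨u⟩ := main2 hLg hu
  obtain ⟨hNA, hW⟩ := S.lifts hpt
  constructor
  · intro k
    refine stab_of_comp fun lam => ?_
    rw [← mt_tJ]
    exact (u.tJ_mem hLg hNA lam).2 k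
  · intro k
    refine stab_of_comp fun lam => ?_
    rw [← mt_tW]
    exact (u.tW_mem hLg hd hW lam).2 k

end Pool.Agent.R917.EC
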