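import Pool.Agent.R917.GL.Cen

set_option autoImplicit false
set_option linter.unusedSectionVars false
set_option linter.unusedSimpArgs false

/-!
# Elliptic curves in abelian varieties, in terms of projectors
-/

open Module Function TensorProduct Matrix

noncomputable section

namespace Pool.Agent.R917.EC

open Pool.Agent.Y102 Pool.Agent.W516.DR Pool.Agent.H204R3.GP Pool.Agent.W516.KC
  Pool.Agent.H204R3.SP Pool.Agent.TH119.MX Pool.Agent.R917.OM Pool.Agent.Y102.AbVar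

open EP (Cm mat_ext v0 v0_ne)

theorem finrank_of_trace {F W : Type} [Field F] [CharZero F] [AddCommGroup W] [Module F W]
    [FiniteDimensional F W] {P : Module.End F W} (hP : P * P = P)
    (ht : LinearMap.trace F W P = 2) : finrank F (LinearMap.range P) = 2 := by
  have h1 := LinearMap.IsProj.trace ((LinearMap.isProj_range_iff_isIdempotentElem P).2 hP)
  rw [ht] at h1
  exact_mod_cast h1.symm

theorem trace_of_finrank {F W : Type} [Field F] [CharZero F] [AddCommGroup W] [Module F W]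
    [FiniteDimensional F W] {P : Module.End F W} (hP : P * P = P)
    (ht : finrank F (LinearMap.range P) = 2) : LinearMap.trace F W P = 2 := by
  have h1 := LinearMap.IsProj.trace ((LinearMap.isProj_range_iff_isIdempotentElem P).2 hP)
  rw [h1, ht]
  norm_num

theorem trace_toMatrix {F W : Type} [Field F] [AddCommGroup W] [Module F W]
    [FiniteDimensional F W] (b : (Fin 2 → F) →ₗ[F] W) (p : W →ₗ[F] (Fin 2 → F))
    (X : Module.End F W) : Matrix.trace (LinearMap.toMatrix' (p ∘ₗ X ∘ₗ b)) =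
      LinearMap.trace F W (X * (b ∘ₗ p)) := by
  have h1 := LinearMap.trace_comp_comm' (p ∘ₗ X) b
  have h2 := LinearMap.trace_eq_matrix_trace F (Pi.basisFun F (Fin 2)) (p ∘ₗ X ∘ₗ b)
  rw [LinearMap.toMatrix_eq_toMatrix'] at h2
  rw [← h2]
  have h3 : LinearMap.trace F W (X * (b ∘ₗ p)) = LinearMap.trace F W ((X ∘ₗ b) ∘ₗ p) := rfl
  rw [h3, LinearMap.trace_comp_comm' p (X ∘ₗ b)]

variable {g : ℕ} {A : AbVar g} {P : Module.End ℚ A.H1}

/-- One elliptic curve. -/
theorem exists_PL (h1 : P ∈ A.EA) (h2 : P * P = P) (h4 : finrank ℚ (LinearMap.range P) = 2) :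
    ∃ S : PL A Unit, S.b () ∘ₗ S.p () = P := by
  obtain ⟨b, p, hpb, hbp⟩ := exists_bp h2 h4
  exact ⟨⟨fun _ => b, fun _ => p, fun _ => hpb, fun _ => by rw [hbp]; exact h1,
    fun c d hcd => absurd (Subsingleton.elim c d) hcd⟩, hbp⟩

theorem trace_rat (h1 : P ∈ A.EA) (h2 : P * P = P) (h4 : finrank ℚ (LinearMap.range P) = 2)
    {X : Module.End ℚ A.H1} (hX : X ∈ A.NA) : LinearMap.trace ℚ A.H1 (X * P) = 0 := by
  obtain ⟨S, hS⟩ := exists_PL h1 h2 h4
  have h3 := S.xi_tz hX ()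
  rw [← hS, ← trace_toMatrix, Matrix.trace_fin_two]
  change S.xi X () 0 0 + S.xi X () 1 1 = 0
  unfold tz at h3
  rw [h3, add_neg_cancel]

theorem exists_D' (S : PL A Unit) {T : Module.End ℚ A.H1} (hT : T ∈ A.EA)
    (hns : ¬ ∃ z : ℚ, (S.b () ∘ₗ S.p () : Module.End ℚ A.H1) * T * (S.b () ∘ₗ S.p ()) =
      z • (S.b () ∘ₗ S.p ())) : ∃ D : M2, tz D ∧ D ≠ 0 ∧ S.up () () D ∈ A.EA := by
  let Q : M2 := LinearMap.toMatrix' (S.p () ∘ₗ T ∘ₗ S.b ())
  have hQ : S.up () () Q = (S.b () ∘ₗ S.p () : Module.End ℚ A.H1) * T * (S.b () ∘ₗ S.p ()) := by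
    refine LinearMap.ext fun v => ?_
    rw [PL.up_apply]
    have e1 : Q *ᵥ S.p () v = S.p () (T (S.b () (S.p () v))) :=
      LinearMap.toMatrix'_mulVec (S.p () ∘ₗ T ∘ₗ S.b ()) (S.p () v)
    rw [e1]
    rfl
  have hQE : S.up () () Q ∈ A.EA := by
    rw [hQ]
    exact EA_mul (EA_mul (S.mem ()) hT) (S.mem ())
  refine ⟨Q - ((Q 0 0 + Q 1 1) / 2) • 1, ?_, ?_, ?_⟩
  · unfold tz
    simp
    ring
  · intro h0
    apply hns
    refine ⟨(Q 0 0 + Q 1 1) / 2, ?_⟩
    rw [← hQ]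
    have h5 : Q = ((Q 0 0 + Q 1 1) / 2) • 1 := sub_eq_zero.1 h0
    refine LinearMap.ext fun v => ?_
    rw [PL.up_apply]
    conv_lhs => rw [h5]
    rw [Matrix.smul_mulVec, Matrix.one_mulVec, map_smul]
    rfl
  · rw [PL.up_sub, PL.up_smul]
    exact A.EA.sub_mem hQE (A.EA.smul_mem _ (S.up_one ()))

theorem rat_com (h1 : P ∈ A.EA) (h2 : P * P = P) (h4 : finrank ℚ (LinearMap.range P) = 2)
    {T : Module.End ℚ A.H1} (hT : T ∈ A.EA) (hns : ¬ ∃ z : ℚ, P * T * P = z • P)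
    {X Y : Module.End ℚ A.H1} (hX : X ∈ A.NA) (hY : Y ∈ A.NA) : (X * Y - Y * X) * P = 0 := by
  obtain ⟨S, hS⟩ := exists_PL h1 h2 h4
  rw [← hS] at hns
  obtain ⟨D, hD, hD0, hDE⟩ := exists_D' S hT hns
  obtain ⟨a, ha⟩ := comm_of_sp hD (S.xi_tz hX ()) hD0 (S.lb_of_up (Cm_of_NA hX) hDE)
  obtain ⟨b, hb⟩ := comm_of_sp hD (S.xi_tz hY ()) hD0 (S.lb_of_up (Cm_of_NA hY) hDE)
  have h5 : S.xi (X * Y - Y * X) () = 0 := by
    rw [S.xi_lb (Cm_of_NA hX) (Cm_of_NA hY), ha, hb, lb_smul_left, lb_smul_right]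
    unfold lb
    rw [sub_self, smul_zero, smul_zero]
  refine LinearMap.ext fun v => ?_
  rw [Module.End.mul_apply, ← hS]
  change (X * Y - Y * X) (S.b () (S.p () v)) = 0
  rw [S.apply_b (Cm_of_NA (A.NA_bracket hX hY)), h5, Matrix.zero_mulVec, map_zero]

/-- An endomorphism which vanishes on an elliptic curve vanishes on isogenous elliptic curves. -/
theorem rat_step {P' : Module.End ℚ A.H1} (h1 : P ∈ A.EA) (h2 : P * P = P)
    (h4 : finrank ℚ (LinearMap.range P) = 2) (h1' : P' ∈ A.EA) (h2' : P' * P' = P')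
    (h4' : finrank ℚ (LinearMap.range P') = 2) {T : Module.End ℚ A.H1} (hT : T ∈ A.EA)
    (hT0 : P' * T * P ≠ 0 ∨ P * T * P' ≠ 0) {X : Module.End ℚ A.H1} (hX : Cm X)
    (h : X * P' = 0) : X * P = 0 := by
  obtain ⟨b, p, hpb, hbp⟩ := exists_bp h2 h4
  obtain ⟨b', p', hpb', hbp'⟩ := exists_bp h2' h4'
  have hbp1 : ∀ w, b (p w) = P w := fun w =>
    congrArg (fun T : A.H1 →ₗ[ℚ] A.H1 => T w) hbp
  have hbp1' : ∀ w, b' (p' w) = P' w := fun w =>
    congrArg (fun T : A.H1 →ₗ[ℚ] A.H1 => T w) hbp'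
  have hPb : ∀ v, P (b v) = b v := fun v => by rw [← hbp1, hpb]
  have hPb' : ∀ v, P' (b' v) = b' v := fun v => by rw [← hbp1', hpb']
  have hmem : (b ∘ₗ p : Module.End ℚ A.H1) ∈ A.EA := by rw [hbp]; exact h1
  have hmem' : (b' ∘ₗ p' : Module.End ℚ A.H1) ∈ A.EA := by rw [hbp']; exact h1'
  rcases hT0 with hT0 | hT0
  · have hTE : P' * T * P ∈ A.EA := EA_mul (EA_mul h1' hT) h1
    have hinj : ∀ v, (P' * T * P) (b v) = 0 → v = 0 := by
      intro v hv
      by_contra hv0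
      apply hT0
      have h6 := line_raw hpb hmem hTE hv0 hv
      refine LinearMap.ext fun w => ?_
      have h7 := h6 (p w)
      simp only [Module.End.mul_apply, LinearMap.zero_apply] at h7 ⊢
      rw [hPb, hbp1] at h7
      exact h7
    have hcom := hX _ hTE
    have h8 : (P' * T * P) * X = 0 := by
      rw [← hcom, mul_assoc, ← mul_assoc, h, zero_mul]
    refine LinearMap.ext fun w => ?_
    have e1 : X (P w) = P (X (P w)) := by
      have e2 := congrArg (fun T : Module.End ℚ A.H1 => T (P w)) (hX _ h1)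
      simp only [Module.End.mul_apply] at e2
      have e3 : P (P w) = P w := congrArg (fun T : Module.End ℚ A.H1 => T w) h2
      rw [e3] at e2
      exact e2
    have e4 : P (X (P w)) = b (p (X (P w))) := (hbp1 _).symm
    have e5 : p (X (P w)) = 0 := by
      apply hinj
      rw [← e4, ← e1]
      exact congrArg (fun T : Module.End ℚ A.H1 => T (P w)) h8
    rw [Module.End.mul_apply, e1, e4, e5, map_zero]
    rfl
  · have hTE : P * T * P' ∈ A.EA := EA_mul (EA_mul h1 hT) h1'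
    let Q : M2 := LinearMap.toMatrix' (p ∘ₗ (P * T * P' : Module.End ℚ A.H1) ∘ₗ b')
    have hQ : ∀ v, b (Q *ᵥ v) = (P * T * P') (b' v) := by
      intro v
      have e1 : Q *ᵥ v = p ((P * T * P') (b' v)) :=
        LinearMap.toMatrix'_mulVec (p ∘ₗ (P * T * P' : Module.End ℚ A.H1) ∘ₗ b') v
      rw [e1, hbp1]
      have e3 : P * (P * T * P') = P * T * P' := by
        rw [← mul_assoc, ← mul_assoc, h2]
      exact congrArg (fun T : Module.End ℚ A.H1 => T (b' v)) e3
    have hinj : ∀ v, Q *ᵥ v = 0 → v = 0 := by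
      intro v hv
      by_contra hv0
      apply hT0
      have h6 := line_raw hpb' hmem' hTE hv0 (by rw [← hQ, hv, map_zero])
      refine LinearMap.ext fun w => ?_
      have h7 := h6 (p' w)
      simp only [Module.End.mul_apply, LinearMap.zero_apply] at h7 ⊢
      rw [hPb', hbp1'] at h7
      exact h7
    have h8 : X * (P * T * P') = 0 := by
      rw [hX _ hTE, mul_assoc, (hX _ h1').symm, h, mul_zero]
    refine LinearMap.ext fun w => ?_
    obtain ⟨v, hv⟩ := mulVec_surj hinj (p w)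
    have e1 : P w = (P * T * P') (b' v) := by
      rw [← hQ, hv, hbp1]
    rw [Module.End.mul_apply, e1]
    exact congrArg (fun T : Module.End ℚ A.H1 => T (b' v)) h8

/-- Representatives of classes. -/
theorem exists_reps {K : Type} [Fintype K] (s : Set K) (R : K → K → Prop) :
    ∃ C : Finset K, (∀ i ∈ C, i ∈ s) ∧ (∀ i ∈ C, ∀ j ∈ C, i ≠ j → ¬ R i j) ∧
      ∀ k ∈ s, k ∉ C → ∃ c ∈ C, R k c ∨ R c k := by
  classical
  let good : Finset (Finset K) := Finset.univ.filter fun S => (∀ i ∈ S, i ∈ s) ∧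
    ∀ i ∈ S, ∀ j ∈ S, i ≠ j → ¬ R i j
  have hgood : ∀ S, S ∈ good ↔ (∀ i ∈ S, i ∈ s) ∧ ∀ i ∈ S, ∀ j ∈ S, i ≠ j → ¬ R i j := fun S => by
    simp [good]
  obtain ⟨S, hS⟩ : ∃ S, Maximal (· ∈ good) S := by
    refine Finset.exists_maximal ?_
    exact ⟨∅, (hgood ∅).2 (by simp)⟩
  obtain ⟨hS1, hS2⟩ := (hgood S).1 hS.1
  refine ⟨S, hS1, hS2, fun k hks hk => ?_⟩
  by_contra hcon
  push Not at hcon
  have h6 : insert k S ∈ good := by
    rw [hgood]
    refine ⟨fun i hi => ?_, fun i hi j hj hij => ?_⟩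
    · rcases Finset.mem_insert.1 hi with rfl | hi'
      · exact hks
      · exact hS1 i hi'
    · rcases Finset.mem_insert.1 hi with rfl | hi'
      · rcases Finset.mem_insert.1 hj with rfl | hj'
        · exact absurd rfl hij
        · exact (hcon j hj').1
      · rcases Finset.mem_insert.1 hj with rfl | hj'
        · exact (hcon i hi').2
        · exact hS2 i hi' j hj' hij
  have h7 := hS.2 h6 (Finset.subset_insert k S)
  exact hk (h7 (Finset.mem_insert_self k S))

end Pool.Agent.R917.EC
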