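import Pool.Agent.R917.GL.Plc
import Pool.Agent.R917.GL.Rat

set_option autoImplicit false
set_option linter.unusedSectionVars false
set_option linter.unusedSimpArgs false

/-!
# Abelian varieties whose homology is a sum of planes
-/

open Module Function TensorProduct Matrix

noncomputable section

namespace Pool.Agent.R917.GL

open Pool.Agent.Y102 Pool.Agent.W516.DR Pool.Agent.H204R3.GP Pool.Agent.W516.KC
  Pool.Agent.H204R3.SP Pool.Agent.TH119.MX Pool.Agent.R917.OM Pool.Agent.Y102.AbVar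

variable {g : ℕ} {A : AbVar g}

theorem cmpE_mul_bc (lam : ℂ →ₗ[ℚ] ℚ) (X : EC A) (Q : Module.End ℚ A.H1) :
    Pool.Agent.W516.DR.cmpE lam (X * Q.baseChange ℂ) = Pool.Agent.W516.DR.cmpE lam X * Q := by
  refine LinearMap.ext fun w => ?_
  rw [Pool.Agent.W516.DR.cmpE_apply, Module.End.mul_apply, Module.End.mul_apply,
    LinearMap.baseChange_tmul, Pool.Agent.W516.DR.cmpE_apply]

theorem eq_zero_of_cmpE {X : EC A} (h : ∀ lam : ℂ →ₗ[ℚ] ℚ, Pool.Agent.W516.DR.cmpE lam X = 0) :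
    X = 0 := by
  refine TensorProduct.AlgebraTensorModule.ext fun a w => ?_
  have h1 : a ⊗ₜ[ℚ] w = a • ((1 : ℂ) ⊗ₜ[ℚ] w) := by rw [smul_tmul', smul_eq_mul, mul_one]
  have h2 : X ((1 : ℂ) ⊗ₜ[ℚ] w) = 0 := by
    apply eq_zero_of_cmp
    intro lam
    rw [← Pool.Agent.W516.DR.cmpE_apply, h lam, LinearMap.zero_apply]
  rw [h1, map_smul, h2, smul_zero, LinearMap.zero_apply]

theorem bc_zero_iff {X : Module.End ℚ A.H1} (h : (X.baseChange ℂ : EC A) = 0) : X = 0 := by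
  have h1 : X ∈ (⊥ : Submodule ℚ (Module.End ℚ A.H1)) := mem_of_bc (by
    rw [h]
    exact Submodule.zero_mem _)
  exact h1

namespace CP

variable {K : Type} [Fintype K] (S : CP A K)

/-- The data of representatives of the isomorphism classes of the planes. -/
structure Reps (P : K → Module.End ℚ A.H1) where
  Cn : Finset K
  Cm : Finset K
  n1 : ∀ i ∈ Cn, i ∈ S.N
  n2 : ∀ i ∈ Cn, ∀ j ∈ Cn, i ≠ j → ¬ ∃ T ∈ A.EA, S.pr j * T.baseChange ℂ * S.pr i ≠ 0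
  n3 : ∀ k ∈ S.N, k ∉ Cn → ∃ c ∈ Cn, (∃ T ∈ A.EA, S.pr c * T.baseChange ℂ * S.pr k ≠ 0) ∨
    ∃ T ∈ A.EA, S.pr k * T.baseChange ℂ * S.pr c ≠ 0
  m1 : ∀ i ∈ Cm, i ∉ S.N
  m2 : ∀ i ∈ Cm, ∀ j ∈ Cm, i ≠ j → ¬ ∃ T ∈ A.EA, P j * T * P i ≠ 0
  m3 : ∀ k, k ∉ S.N → k ∉ Cm → ∃ c ∈ Cm, (∃ T ∈ A.EA, P c * T * P k ≠ 0) ∨
    ∃ T ∈ A.EA, P k * T * P c ≠ 0

theorem exists_Reps (P : K → Module.End ℚ A.H1) : Nonempty (S.Reps P) := by
  obtain ⟨Cn, n1, n2, n3⟩ := EC.exists_reps S.N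
    (fun i j => ∃ T ∈ A.EA, S.pr j * T.baseChange ℂ * S.pr i ≠ 0)
  obtain ⟨Cm, m1, m2, m3⟩ := EC.exists_reps (S.N)ᶜ (fun i j => ∃ T ∈ A.EA, P j * T * P i ≠ 0)
  exact ⟨⟨Cn, Cm, n1, n2, n3, m1, m2, m3⟩⟩

/-- The planes outside of `N` are elliptic curves with complex multiplication. -/
structure Rt (P : K → Module.End ℚ A.H1) : Prop where
  eq : ∀ k, k ∉ S.N → S.pr k = (P k).baseChange ℂ
  mem : ∀ k, k ∉ S.N → P k ∈ A.EA
  idem : ∀ k, k ∉ S.N → P k * P k = P k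
  rk : ∀ k, k ∉ S.N → finrank ℚ (LinearMap.range (P k)) = 2
  nsc : ∀ k, k ∉ S.N → ∃ T ∈ A.EA, ¬ ∃ z : ℚ, P k * T * P k = z • P k
  iso : ∀ i j, i ∉ S.N → j ∉ S.N → i ≠ j → (∃ T ∈ A.EA, P j * T * P i ≠ 0) ∨
    ∀ T : Module.End ℚ A.H1, (∃ F : (Fin g → ℂ) →ₗ[ℂ] (Fin g → ℂ), ∀ w,
      F (A.per w) = A.per (T w)) → P j * T * P i = 0

variable {S} {P : K → Module.End ℚ A.H1} (C : S.Reps P) (R : S.Rt P)
  (hsum : ∑ k, S.pr k = 1)

include R hsum in
/-- An endomorphism is determined by its action on the representatives. -/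
theorem inj {X : EC A} (hX : CC X) (h1 : ∀ c ∈ C.Cn, S.xi X c = 0)
    (h2 : ∀ c ∈ C.Cm, S.xi X c = 0) : X = 0 := by
  have e1 : ∀ c ∈ C.Cn, X * S.pr c = 0 := fun c hc => S.mul_pr_eq hX (h1 c hc)
  have e2 : ∀ c ∈ C.Cm, X * S.pr c = 0 := fun c hc => S.mul_pr_eq hX (h2 c hc)
  have hmul : ∀ P ∈ cx A.EA, ∀ Q ∈ cx A.EA, P * Q ∈ cx A.EA := by
    intro P hP Q hQ
    refine mem_cx_EA EC.full_NA fun Y hY => ?_
    have e1 := CC_of_cx hY P hP
    have e2 := CC_of_cx hY Q hQ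
    rw [mul_assoc, ← e2, ← mul_assoc, ← e1, mul_assoc]
  have key : ∀ k, X * S.pr k = 0 := by
    intro k
    by_cases hk : k ∈ S.N
    · by_cases hkC : k ∈ C.Cn
      · exact e1 k hkC
      · obtain ⟨c, hc, ⟨T, hT, hT0⟩ | ⟨T, hT, hT0⟩⟩ := C.n3 k hk hkC
        · refine S.step1 hk hX (hmul _ (S.pr_mem c) _ (bc_mem hT)) hT0 ?_
          rw [← mul_assoc, e1 c hc, zero_mul, zero_mul]
        · refine S.step2 hk hX (T := T.baseChange ℂ * S.pr c) (hmul _ (bc_mem hT) _ (S.pr_mem c))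
            (by rw [← mul_assoc]; exact hT0) ?_
          rw [← mul_assoc, hX _ (bc_mem hT), mul_assoc, e1 c hc, mul_zero]
    · by_cases hkC : k ∈ C.Cm
      · exact e2 k hkC
      · obtain ⟨c, hc, hcT⟩ := C.m3 k hk hkC
        have hc' := C.m1 c hc
        obtain ⟨T, hT, hT0⟩ : ∃ T ∈ A.EA, P c * T * P k ≠ 0 ∨ P k * T * P c ≠ 0 := by
          rcases hcT with ⟨T, hT, hT0⟩ | ⟨T, hT, hT0⟩
          · exact ⟨T, hT, Or.inl hT0⟩
          · exact ⟨T, hT, Or.inr hT0⟩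
        apply eq_zero_of_cmpE
        intro lam
        rw [R.eq k hk, cmpE_mul_bc]
        refine EC.rat_step (R.mem k hk) (R.idem k hk) (R.rk k hk) (R.mem c hc') (R.idem c hc')
          (R.rk c hc') hT hT0 (fun Q hQ => ?_) ?_
        · exact ((comm_iff Q X).2 (hX _ (bc_mem hQ))) lam
        · rw [← cmpE_mul_bc, ← R.eq c hc', e2 c hc]
          refine LinearMap.ext fun w => ?_
          rw [Pool.Agent.W516.DR.cmpE_apply, LinearMap.zero_apply, map_zero, LinearMap.zero_apply]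
  calc X = X * ∑ k, S.pr k := by rw [hsum, mul_one]
    _ = 0 := by
      rw [Finset.mul_sum]
      exact Finset.sum_eq_zero fun i _ => key i

/-- The index set of the representatives. -/
abbrev Ix : Type := {k : K // k ∈ C.Cn ∨ k ∈ C.Cm}

/-- The matrices on the representatives. -/
def xiC : EC A →ₗ[ℂ] (Ix C → M2) where
  toFun X c := S.xi X c.1
  map_add' X Y := by
    funext c
    rw [map_add]
    rfl
  map_smul' a X := by
    funext c
    rw [map_smul]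
    rfl

theorem gd {𝔥 : Submodule ℚ (Module.End ℚ A.H1)} (h : A.Full 𝔥) :
    Gd ((cx 𝔥).map (xiC C)) {c : Ix C | c.1 ∈ S.N} where
  tr := by
    rintro _ ⟨X, hX, rfl⟩ c hc
    exact S.xi_tz hc (cx_mono h.le hX)
  br := by
    rintro _ ⟨X, hX, rfl⟩ _ ⟨Y, hY, rfl⟩
    refine ⟨X * Y - Y * X, h.cx_br' X hX Y hY, ?_⟩
    funext c
    exact S.xi_lb (CC_of_cx (cx_mono h.le hX)) (CC_of_cx (cx_mono h.le hY)) c.1
  su := by
    intro c hc x hx
    obtain ⟨X, hX, h1⟩ := S.su h hc hx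
    exact ⟨_, ⟨X, hX, rfl⟩, h1⟩
  ho := by
    rintro ⟨c, hcC⟩ hc ⟨d, hdC⟩ hd hcd Q hQ
    have hc' : c ∈ S.N := hc
    have hd' : d ∈ S.N := hd
    have hcn : c ∈ C.Cn := hcC.resolve_right fun h => C.m1 c h hc'
    have hdn : d ∈ C.Cn := hdC.resolve_right fun h => C.m1 d h hd'
    have hne : c ≠ d := fun e => hcd (Subtype.ext e)
    have h1 : S.up c d Q ∈ cx A.EA := S.up_mem h fun X hX => hQ _ ⟨X, hX, rfl⟩
    have h2 : ∀ T ∈ cx A.EA, S.pr d * T * S.pr c = 0 := by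
      intro T hT
      induction hT using Submodule.span_induction with
      | mem X hX =>
        obtain ⟨T, hT, rfl⟩ := hX
        by_contra hne'
        exact C.n2 c hcn d hdn hne ⟨T, hT, hne'⟩
      | zero => rw [mul_zero, zero_mul]
      | add a b _ _ ha hb => rw [mul_add, add_mul, ha, hb, add_zero]
      | smul z a _ ha => rw [mul_smul_comm, smul_mul_assoc, ha, smul_zero]
    have h3 := h2 _ h1
    refine mat_ext fun v => ?_
    have h4 := congrArg (fun T : EC A => T (S.b c v)) h3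
    simp only [Module.End.mul_apply, LinearMap.zero_apply] at h4
    rw [S.pr_apply c, S.pb, up_apply, S.pb, S.pr_apply, S.pb] at h4
    rw [S.b_inj h4, Matrix.zero_mulVec]
  cm := by
    rintro c hc _ ⟨X, hX, rfl⟩ _ ⟨Y, hY, rfl⟩
    have hX' := cx_mono h.le hX
    have hY' := cx_mono h.le hY
    change lb (S.xi X c.1) (S.xi Y c.1) = 0
    rw [← S.xi_lb (CC_of_cx hX') (CC_of_cx hY')]
    exact S.xi_com hc hX' hY'

/-- Elements with given matrices. -/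
theorem exists_lift {𝔥 : Submodule ℚ (Module.End ℚ A.H1)} (h : A.Full 𝔥) (y : Ix C → M2)
    (hy : ∀ c, c.1 ∈ S.N → tz (y c)) (hy' : ∀ c, c.1 ∉ S.N → y c = 0) :
    ∃ X ∈ cx 𝔥, ∀ c, xiC C X c = y c := by
  classical
  have hG := gd C h
  have h1 : ∀ c : Ix C, ∃ X ∈ cx 𝔥, xiC C X c = y c ∧ ∀ e, e ≠ c → xiC C X e = 0 := by
    intro c
    by_cases hc : c.1 ∈ S.N
    · obtain ⟨_, ⟨X, hX, rfl⟩, a, b⟩ := hG.single (c := c) hc (hy c hc)
      exact ⟨X, hX, a, b⟩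
    · exact ⟨0, Submodule.zero_mem _, by rw [map_zero, hy' c hc, Pi.zero_apply], fun e _ => by
        rw [map_zero, Pi.zero_apply]⟩
  choose X hX a e using h1
  refine ⟨∑ c, X c, Submodule.sum_mem _ fun c _ => hX c, fun c => ?_⟩
  rw [map_sum, Finset.sum_apply, Finset.sum_eq_single c]
  · exact a c
  · intro c' _ hc'
    exact e c' c (Ne.symm hc')
  · intro h
    exact absurd (Finset.mem_univ c) h

include R hsum in
/-- **Rigidity.** -/
theorem rig {𝔥 : Submodule ℚ (Module.End ℚ A.H1)} (h : A.Full 𝔥) {X Y : Module.End ℚ A.H1}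
    (hX : X ∈ A.NA) (hY : Y ∈ A.NA) : X * Y - Y * X ∈ 𝔥 := by
  obtain ⟨C⟩ := S.exists_Reps P
  have hZ : X * Y - Y * X ∈ A.NA := A.NA_bracket hX hY
  have hZC := bc_mem hZ
  obtain ⟨W, hW, h1⟩ := exists_lift C h (xiC C ((X * Y - Y * X).baseChange ℂ))
    (fun c hc => S.xi_tz hc hZC) (fun c hc => by
      rw [bc_br]
      exact S.xi_com hc (bc_mem hX) (bc_mem hY))
  have h2 : (X * Y - Y * X).baseChange ℂ - W = 0 := by
    refine inj C R hsum (CC.sub (CC_of_cx hZC) (CC_of_cx (cx_mono h.le hW))) (fun c hc => ?_)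
      fun c hc => ?_
    · have h3 := h1 ⟨c, Or.inl hc⟩
      change S.xi W c = S.xi _ c at h3
      rw [map_sub, Pi.sub_apply, h3, sub_self]
    · have h3 := h1 ⟨c, Or.inr hc⟩
      change S.xi W c = S.xi _ c at h3
      rw [map_sub, Pi.sub_apply, h3, sub_self]
  refine mem_of_bc ?_
  rw [sub_eq_zero.1 h2]
  exact hW

include R hsum in
/-- **The data for the centre.** -/
theorem exists_CMS : ∃ (M : Type) (_ : Finite M), Nonempty (EC.CMS A M) := by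
  obtain ⟨C⟩ := S.exists_Reps P
  have hbp : ∀ c : {k : K // k ∈ C.Cm}, ∃ (b : (Fin 2 → ℚ) →ₗ[ℚ] A.H1)
      (p : A.H1 →ₗ[ℚ] (Fin 2 → ℚ)), (∀ v, p (b v) = v) ∧ b ∘ₗ p = P c.1 := fun c =>
    EC.exists_bp (R.idem c.1 (C.m1 c.1 c.2)) (R.rk c.1 (C.m1 c.1 c.2))
  choose b p hpb hbp using hbp
  have hbinj : ∀ c v, b c v = 0 → v = 0 := fun c v h => by
    rw [← hpb c v, h, map_zero]
  have hPb : ∀ c v, P c.1 (b c v) = b c v := fun c v => by
    rw [← hbp c, LinearMap.comp_apply, hpb]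
  let L : EC.PL A {k : K // k ∈ C.Cm} :=
    { b := b
      p := p
      pb := hpb
      mem := fun c => by
        rw [hbp]
        exact R.mem c.1 (C.m1 c.1 c.2)
      ho := by
        intro c d hcd Q hQ
        have hcd' : c.1 ≠ d.1 := fun h => hcd (Subtype.ext h)
        rcases R.iso c.1 d.1 (C.m1 c.1 c.2) (C.m1 d.1 d.2) hcd' with h | h
        · exact absurd h (C.m2 c.1 c.2 d.1 d.2 hcd')
        · have h6 := h _ hQ
          refine EC.EP.mat_ext fun v => ?_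
          have h7 := congrArg (fun T : Module.End ℚ A.H1 => T (b c v)) h6
          simp only [Module.End.mul_apply, LinearMap.zero_apply] at h7
          rw [hPb] at h7
          change P d.1 (b d (Q *ᵥ p c (b c v))) = 0 at h7
          rw [hPb, hpb] at h7
          rw [hbinj d _ h7, Matrix.zero_mulVec] }
  have hD : ∀ c : {k : K // k ∈ C.Cm}, ∃ D : EC.M2, EC.tz D ∧ D ≠ 0 ∧ L.up c c D ∈ A.EA := by
    intro c
    obtain ⟨T, hT, hns⟩ := R.nsc c.1 (C.m1 c.1 c.2)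
    let S1 : EC.PL A Unit := ⟨fun _ => b c, fun _ => p c, fun _ => hpb c, fun _ => by
      rw [hbp]
      exact R.mem c.1 (C.m1 c.1 c.2), fun c d hcd => absurd (Subsingleton.elim c d) hcd⟩
    obtain ⟨D, h1, h2, h3⟩ := EC.exists_D' S1 hT (by
      change ¬ ∃ z : ℚ, (b c ∘ₗ p c : Module.End ℚ A.H1) * T * (b c ∘ₗ p c) = z • (b c ∘ₗ p c)
      rw [hbp]
      exact hns)
    exact ⟨D, h1, h2, h3⟩
  choose D hD1 hD2 hD3 using hD
  refine ⟨{k : K // k ∈ C.Cm}, inferInstance, ⟨EC.CMS.mk L D hD1 hD2 hD3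
    (fun 𝔥 h X hX Y hY => rig R hsum h hX hY) ?_⟩⟩
  intro Z hZ hZc Y hY h0
  apply bc_zero_iff
  rw [bc_mul]
  have hZC := bc_mem hZ
  have hYC := CC_of_Cm hY
  refine inj C R hsum (CC.mul (CC_of_cx hZC) hYC) (fun c hc => ?_) fun c hc => ?_
  · have hcN := C.n1 c hc
    have h3 : S.xi (Z.baseChange ℂ) c = 0 := by
      have hcen : ∀ X ∈ cx A.NA, Z.baseChange ℂ * X = X * Z.baseChange ℂ := cx_comm fun X hX => by
        rw [← bc_mul, ← bc_mul, hZc X hX]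
      obtain ⟨z, hz⟩ := S.sc_mat EC.full_NA hcN (Q := S.xi (Z.baseChange ℂ) c) (fun X hX => by
        rw [← S.xi_mul (CC_of_cx hZC) (CC_of_cx hX), ← S.xi_mul (CC_of_cx hX) (CC_of_cx hZC),
          hcen X hX])
      exact tz_of_scalar (S.xi_tz hcN hZC) hz
    rw [S.xi_mul (CC_of_cx hZC) hYC, h3, zero_mul]
  · have hcN := C.m1 c hc
    apply S.xi_eq_of_mul_pr
    rw [R.eq c hcN, ← bc_mul, ← bc_mul]
    have h4 : Z * Y * P c = 0 := by
      refine LinearMap.ext fun w => ?_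
      have hPw : P c w = b ⟨c, hc⟩ (p ⟨c, hc⟩ w) :=
        congrArg (fun T : A.H1 →ₗ[ℚ] A.H1 => T w) (hbp ⟨c, hc⟩).symm
      have hcm : EC.EP.Cm (Z * Y) := EC.EP.Cm.mul (EC.Cm_of_NA hZ) hY
      have h5 := hcm _ (R.mem c hcN)
      have h6 := congrArg (fun T : Module.End ℚ A.H1 => T (P c w)) h5
      simp only [Module.End.mul_apply] at h6
      have h7 : P c (P c w) = P c w :=
        congrArg (fun T : Module.End ℚ A.H1 => T w) (R.idem c hcN)
      rw [h7] at h6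
      have h8 := h0 ⟨c, hc⟩ (p ⟨c, hc⟩ w)
      change p ⟨c, hc⟩ ((Z * Y) (b ⟨c, hc⟩ (p ⟨c, hc⟩ w))) = 0 at h8
      rw [← hPw] at h8
      have h9 : P c (Z (Y (P c w))) = b ⟨c, hc⟩ (p ⟨c, hc⟩ (Z (Y (P c w)))) :=
        congrArg (fun T : A.H1 →ₗ[ℚ] A.H1 => T (Z (Y (P c w)))) (hbp ⟨c, hc⟩).symm
      rw [Module.End.mul_apply, Module.End.mul_apply, h6, h9]
      rw [Module.End.mul_apply] at h8
      rw [h8, map_zero, LinearMap.zero_apply]
    rw [h4, LinearMap.baseChange_zero]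

end CP

end Pool.Agent.R917.GL
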