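import Pool.Agent.R917.GL.Gou2

set_option autoImplicit false
set_option linter.unusedSectionVars false
set_option linter.unusedSimpArgs false

/-!
# Perfect subalgebras of the Lie algebra of two by two matrices
-/

open Matrix

namespace Pool.Agent.R917.GL

theorem sp_smul_left (a : ℂ) (x y : M2) : sp (a • x) y = a * sp x y := by
  rw [sp_comm, sp_smul_right, sp_comm]

theorem sp_zero_left (y : M2) : sp 0 y = 0 := by
  simp [sp]

theorem mat_ext {Q Q' : M2} (h : ∀ v, Q *ᵥ v = Q' *ᵥ v) : Q = Q' := by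
  ext i j
  have h1 := congrFun (h (Pi.single j 1)) i
  rw [Matrix.mulVec_single_one, Matrix.mulVec_single_one] at h1
  exact h1

/-- A perfect subalgebra is zero or everything. -/
theorem perf_top {V : Submodule ℂ M2} (hV : ∀ x ∈ V, tz x) (hb : ∀ x ∈ V, ∀ y ∈ V, lb x y ∈ V)
    (hp : ∀ x ∈ V, x ∈ Submodule.span ℂ {z : M2 | ∃ x ∈ V, ∃ y ∈ V, z = lb x y})
    (hne : ∃ x ∈ V, x ≠ 0) {x : M2} (hx : tz x) : x ∈ V := by
  by_contra hcon
  obtain ⟨w, hw, hw0, hwV⟩ := exists_orth hV hx hcon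
  have key : ∀ x ∈ V, ∀ y ∈ V, ∀ z ∈ V, sp (lb x y) z = 0 := by
    intro x hx y hy z hz
    have h1 := triple hw (hV x hx) (hV y hy) (hV z hz)
    rw [hwV x hx, hwV y hy, hwV z hz, zero_smul, zero_smul, zero_smul, add_zero, add_zero] at h1
    exact (smul_eq_zero.1 h1).resolve_right hw0
  have hiso : ∀ x ∈ V, ∀ y ∈ V, sp x y = 0 := by
    intro x hx y hy
    have h1 := hp x hx
    clear hx
    induction h1 using Submodule.span_induction with
    | mem x hx =>
      obtain ⟨a, ha, b, hb, rfl⟩ := hx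
      exact key a ha b hb y hy
    | zero => exact sp_zero_left y
    | add a b _ _ ha hb => rw [sp_add_left, ha, hb, add_zero]
    | smul c a _ ha => rw [sp_smul_left, ha, mul_zero]
  obtain ⟨x₀, h₀, hne⟩ := hne
  obtain ⟨u, hu0, ⟨e, hu⟩, him, hker⟩ := nil_vec (hV x₀ h₀) (hiso x₀ h₀ x₀ h₀) hne
  have hst : ∀ x ∈ V, ∃ a : ℂ, x *ᵥ u = a • u := by
    intro x hx
    refine hker _ ?_
    rw [hu, Matrix.mulVec_mulVec, Matrix.mulVec_mulVec, rank_one (hV x₀ h₀)
      (hiso x₀ h₀ x₀ h₀), hiso x hx x₀ h₀, zero_smul, Matrix.zero_mulVec]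
  have hst0 : ∀ x ∈ V, x *ᵥ u = 0 := by
    intro x hx
    have h1 := hp x hx
    clear hx
    induction h1 using Submodule.span_induction with
    | mem x hx =>
      obtain ⟨a, ha, b, hb, rfl⟩ := hx
      obtain ⟨α, hα⟩ := hst a ha
      obtain ⟨β, hβ⟩ := hst b hb
      unfold lb
      rw [Matrix.sub_mulVec, ← Matrix.mulVec_mulVec, ← Matrix.mulVec_mulVec, hα, hβ,
        Matrix.mulVec_smul, Matrix.mulVec_smul, hα, hβ, smul_smul, smul_smul, mul_comm, sub_self]
    | zero => exact Matrix.zero_mulVec u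
    | add a b _ _ ha hb => rw [Matrix.add_mulVec, ha, hb, add_zero]
    | smul c a _ ha => rw [Matrix.smul_mulVec, ha, smul_zero]
  have hmul : ∀ x ∈ V, ∀ y ∈ V, x * y = 0 := by
    intro x hx y hy
    by_cases hy0 : y = 0
    · rw [hy0, mul_zero]
    · obtain ⟨u', hu0', -, him', hker'⟩ := nil_vec (hV y hy) (hiso y hy y hy) hy0
      obtain ⟨a, ha⟩ := hker' u (hst0 y hy)
      have ha0 : a ≠ 0 := by
        rintro rfl
        rw [zero_smul] at ha
        exact hu0 ha
      refine mat_ext fun v => ?_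
      obtain ⟨b, hb⟩ := him' v
      have h2 : u' = a⁻¹ • u := by rw [ha, smul_smul, inv_mul_cancel₀ ha0, one_smul]
      rw [← Matrix.mulVec_mulVec, hb, h2, Matrix.mulVec_smul, Matrix.mulVec_smul, hst0 x hx,
        smul_zero, smul_zero, Matrix.zero_mulVec]
  apply hne
  have h1 := hp x₀ h₀
  have h2 : Submodule.span ℂ {z : M2 | ∃ x ∈ V, ∃ y ∈ V, z = lb x y} ≤ ⊥ := by
    rw [Submodule.span_le]
    rintro _ ⟨x, hx, y, hy, rfl⟩
    change lb x y = 0
    unfold lb
    rw [hmul x hx y hy, hmul y hy x hx, sub_zero]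
  exact h2 h1

end Pool.Agent.R917.GL
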