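import Pool.Agent.R917.EC.Ell5

set_option autoImplicit false
set_option linter.unusedSectionVars false
set_option linter.unusedSimpArgs false

/-!
# Elliptic curves in abelian varieties
-/

open Module Function TensorProduct Matrix

noncomputable section

namespace Pool.Agent.R917.EC

open Pool.Agent.Y102 Pool.Agent.W516.DR Pool.Agent.H204R3.GP Pool.Agent.W516.KC
  Pool.Agent.H204R3.SP Pool.Agent.TH119.MX Pool.Agent.R917.OM Pool.Agent.Y102.AbVar

open EP (Cm mat_ext v0 v0_ne)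

variable {g : ℕ} {A : AbVar g}

/-- The data of some elliptic curves in an abelian variety. -/
structure PL (A : AbVar g) (C : Type) where
  b : C → (Fin 2 → ℚ) →ₗ[ℚ] A.H1
  p : C → A.H1 →ₗ[ℚ] (Fin 2 → ℚ)
  pb : ∀ c v, p c (b c v) = v
  mem : ∀ c, (b c ∘ₗ p c : Module.End ℚ A.H1) ∈ A.EA
  ho : ∀ c d, c ≠ d → ∀ Q : M2, (∃ F : (Fin g → ℂ) →ₗ[ℂ] (Fin g → ℂ), ∀ w,
    F (A.per w) = A.per ((b d ∘ₗ Matrix.toLin' Q ∘ₗ p c) w)) → Q = 0

namespace PL

variable {C : Type} (S : PL A C)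

/-- the projector -/
def pr (c : C) : Module.End ℚ A.H1 := S.b c ∘ₗ S.p c

theorem pr_apply (c : C) (v : A.H1) : S.pr c v = S.b c (S.p c v) := rfl

/-- the extension of a matrix -/
def up (c d : C) (Q : M2) : Module.End ℚ A.H1 := S.b d ∘ₗ Matrix.toLin' Q ∘ₗ S.p c

theorem up_apply (c d : C) (Q : M2) (v : A.H1) : S.up c d Q v = S.b d (Q *ᵥ S.p c v) := rfl

theorem ho' {c d : C} (hcd : c ≠ d) {Q : M2} (h : S.up c d Q ∈ A.EA) : Q = 0 :=
  S.ho c d hcd Q (hodge_lin h)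

theorem b_inj {c : C} {v : Fin 2 → ℚ} (h : S.b c v = 0) : v = 0 := by
  rw [← S.pb c v, h, map_zero]

theorem line {c d : C} {Q : M2} (hQ : S.up c d Q ∈ A.EA) {v : Fin 2 → ℚ} (hv : v ≠ 0)
    (h : Q *ᵥ v = 0) : Q = 0 := by
  refine mat_ext fun v' => ?_
  have h1 := line_raw (S.pb c) (S.mem c) hQ hv (by rw [up_apply, S.pb, h, map_zero]) v'
  rw [up_apply, S.pb] at h1
  rw [S.b_inj h1, Matrix.zero_mulVec]

/-- The matrix of an endomorphism in the components. -/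
def xi : Module.End ℚ A.H1 →ₗ[ℚ] (C → M2) where
  toFun X c := LinearMap.toMatrix' (S.p c ∘ₗ X ∘ₗ S.b c)
  map_add' X Y := by
    funext c
    rw [Pi.add_apply, ← map_add]
    congr 1
    ext v
    simp
  map_smul' a X := by
    funext c
    rw [Pi.smul_apply, RingHom.id_apply, ← map_smul]
    congr 1
    ext v
    simp

theorem xi_mulVec (X : Module.End ℚ A.H1) (c : C) (v : Fin 2 → ℚ) :
    S.xi X c *ᵥ v = S.p c (X (S.b c v)) :=
  LinearMap.toMatrix'_mulVec (S.p c ∘ₗ X ∘ₗ S.b c) v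

variable {X Y : Module.End ℚ A.H1}

theorem apply_b (hX : Cm X) (c : C) (v : Fin 2 → ℚ) : X (S.b c v) = S.b c (S.xi X c *ᵥ v) := by
  have h1 := congrArg (fun T : Module.End ℚ A.H1 => T (S.b c v)) (hX _ (S.mem c))
  simp only [Module.End.mul_apply, LinearMap.comp_apply] at h1
  rw [S.pb] at h1
  rw [xi_mulVec]
  exact h1

theorem p_apply (hX : Cm X) (c : C) (w : A.H1) : S.p c (X w) = S.xi X c *ᵥ S.p c w := by
  have h1 := congrArg (fun T : Module.End ℚ A.H1 => T w) (hX _ (S.mem c))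
  simp only [Module.End.mul_apply, LinearMap.comp_apply] at h1
  have h2 := congrArg (S.p c) h1
  rw [S.pb] at h2
  rw [← h2, xi_mulVec]

theorem xi_mul (hX : Cm X) (hY : Cm Y) (c : C) : S.xi (X * Y) c = S.xi X c * S.xi Y c := by
  refine mat_ext fun v => ?_
  rw [← Matrix.mulVec_mulVec, xi_mulVec, Module.End.mul_apply, S.apply_b hY, S.p_apply hX, S.pb]

theorem xi_lb (hX : Cm X) (hY : Cm Y) (c : C) :
    S.xi (X * Y - Y * X) c = lb (S.xi X c) (S.xi Y c) := by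
  rw [map_sub, Pi.sub_apply, S.xi_mul hX hY, S.xi_mul hY hX]
  rfl

theorem xi_tz (hX : X ∈ A.NA) (c : C) : tz (S.xi X c) := by
  have hC := Cm_of_NA hX
  have hs := A.NA_skew hX
  have he : ∀ i : Fin 2, (Pi.single i 1 : Fin 2 → ℚ) ≠ 0 := by
    intro i h
    have h1 := congrFun h i
    rw [Pi.single_eq_same] at h1
    exact one_ne_zero h1
  have hom0 : ∀ x : A.H1, A.om x x = 0 := fun x => by
    have h5 := A.om_anti x x
    linarith
  -- the form is not zero on the plane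
  have h01 : A.om (S.b c (Pi.single 0 1)) (S.b c (Pi.single 1 1)) ≠ 0 := by
    intro h0
    obtain ⟨y, hy, hyx⟩ := exists_om (x := S.b c (Pi.single 0 1))
      (fun h => he 0 (S.b_inj h)) (U := LinearMap.ker (S.pr c - 1)) (by
        rw [LinearMap.mem_ker, LinearMap.sub_apply, pr_apply, S.pb]
        exact sub_self _) (fun f u hu => by
        rw [LinearMap.mem_ker, LinearMap.sub_apply, sub_eq_zero] at hu ⊢
        have e2 := A.NA_comm (A.MA_le_NA (A.J_mem f)) (S.mem c)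
        have e4 := congrArg (fun T : Module.End ℚ A.H1 => T u) e2
        simp only [Module.End.mul_apply] at e4
        change (S.b c ∘ₗ S.p c) _ = _
        rw [← e4]
        exact congrArg _ hu)
    rw [LinearMap.mem_ker, LinearMap.sub_apply, sub_eq_zero, pr_apply] at hy
    change S.b c (S.p c y) = y at hy
    apply hyx
    have h2 : S.p c y = S.p c y 0 • Pi.single 0 1 + S.p c y 1 • Pi.single 1 1 := by
      funext i
      fin_cases i <;> simp
    rw [← hy, h2, map_add, map_smul, map_smul, map_add, map_smul, map_smul, LinearMap.add_apply,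
      LinearMap.smul_apply, LinearMap.smul_apply, hom0, A.om_anti, h0]
    simp
  have h1 := hs (S.b c (Pi.single 0 1)) (S.b c (Pi.single 1 1))
  rw [S.apply_b hC, S.apply_b hC] at h1
  have h2 : ∀ v : Fin 2 → ℚ, v = v 0 • Pi.single 0 1 + v 1 • Pi.single 1 1 := by
    intro v
    funext i
    fin_cases i <;> simp
  rw [h2 (S.xi X c *ᵥ Pi.single 0 1), h2 (S.xi X c *ᵥ Pi.single 1 1)] at h1
  simp only [map_add, map_smul, LinearMap.add_apply, LinearMap.smul_apply, hom0, smul_eq_mul,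
    mul_zero, add_zero, zero_add, Matrix.mulVec_single_one] at h1
  have h3 : (S.xi X c 0 0 + S.xi X c 1 1) *
      A.om (S.b c (Pi.single 0 1)) (S.b c (Pi.single 1 1)) = 0 := by
    have h4 := h1
    simp only [Matrix.col_apply] at h4
    linear_combination h4
  have h5 := (mul_eq_zero.1 h3).resolve_right h01
  unfold tz
  linarith

theorem up_one (c : C) : S.up c c 1 ∈ A.EA := by
  have h1 : S.up c c 1 = S.b c ∘ₗ S.p c := by
    refine LinearMap.ext fun v => ?_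
    rw [up_apply, Matrix.one_mulVec]
    rfl
  rw [h1]
  exact S.mem c

theorem up_sub (c d : C) (Q Q' : M2) : S.up c d (Q - Q') = S.up c d Q - S.up c d Q' := by
  refine LinearMap.ext fun v => ?_
  rw [LinearMap.sub_apply, up_apply, up_apply, up_apply, Matrix.sub_mulVec, map_sub]

theorem up_smul (c d : C) (a : ℚ) (Q : M2) : S.up c d (a • Q) = a • S.up c d Q := by
  refine LinearMap.ext fun v => ?_
  rw [LinearMap.smul_apply, up_apply, up_apply, Matrix.smul_mulVec, map_smul]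

theorem lb_of_up {X : Module.End ℚ A.H1} (hX : Cm X) {c : C} {Q : M2} (hQ : S.up c c Q ∈ A.EA) :
    lb (S.xi X c) Q = 0 := by
  have h1 := hX _ hQ
  refine mat_ext fun v => ?_
  have h2 := congrArg (fun T : Module.End ℚ A.H1 => S.p c (T (S.b c v))) h1
  simp only [Module.End.mul_apply] at h2
  rw [up_apply, S.pb, S.p_apply hX, S.pb, S.apply_b hX, up_apply, S.pb, S.pb] at h2
  unfold lb
  rw [Matrix.sub_mulVec, ← Matrix.mulVec_mulVec, ← Matrix.mulVec_mulVec, h2, sub_self,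
    Matrix.zero_mulVec]

theorem up_comm {c d : C} {P : M2} {X : Module.End ℚ A.H1} (hX : Cm X)
    (h : P * S.xi X c = S.xi X d * P) : X * S.up c d P = S.up c d P * X := by
  refine LinearMap.ext fun v => ?_
  rw [Module.End.mul_apply, Module.End.mul_apply, up_apply, up_apply, S.apply_b hX, S.p_apply hX,
    Matrix.mulVec_mulVec, Matrix.mulVec_mulVec, h]

theorem up_mem {𝔥 : Submodule ℚ (Module.End ℚ A.H1)} (h : A.Full 𝔥) {c d : C} {P : M2}
    (hP : ∀ X ∈ 𝔥, P * S.xi X c = S.xi X d * P) : S.up c d P ∈ A.EA := by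
  intro X hX
  exact h.comm _ (fun Y hY => S.up_comm (Cm_of_NA (h.le hY)) (hP Y hY)) X (A.LA_le_NA hX)

/-- The data of a component with complex multiplication. -/
structure CMd (c : C) where
  D : M2
  tr : tz D
  ne : D ≠ 0
  mem : S.up c c D ∈ A.EA
  ρ : ℝ
  hρ : ρ ≠ 0
  J : ∀ f : ℝ →ₗ[ℚ] ℚ, S.xi (A.cmpE f JJ) c = f ρ • D
  I : Complex.I • A.per (S.b c v0) = ρ • A.per (S.b c (D *ᵥ v0))

theorem D_ne {c : C} {D : M2} (hD : S.up c c D ∈ A.EA) (hD0 : D ≠ 0) {v : Fin 2 → ℚ}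
    (hv : v ≠ 0) : D *ᵥ v ≠ 0 := fun h => hD0 (S.line hD hv h)

theorem exists_CMd {c : C} {D : M2} (hD : tz D) (hD0 : D ≠ 0) (hDE : S.up c c D ∈ A.EA) :
    Nonempty (S.CMd c) := by
  have hJ : ∀ f : ℝ →ₗ[ℚ] ℚ, ∃ m : ℚ, S.xi (A.cmpE f JJ) c = m • D := fun f =>
    comm_of_sp hD (S.xi_tz (A.MA_le_NA (A.J_mem f)) c) hD0
      (S.lb_of_up (Cm_of_NA (A.MA_le_NA (A.J_mem f))) hDE)
  choose m hm using hJ
  have hcmp : ∀ f : ℝ →ₗ[ℚ] ℚ, A.cmp f (Complex.I • A.per (S.b c v0)) =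
      m f • S.b c (D *ᵥ v0) := by
    intro f
    have h1 := S.apply_b (Cm_of_NA (A.MA_le_NA (A.J_mem f))) c v0
    rw [hm, Matrix.smul_mulVec, map_smul] at h1
    exact h1
  have hne : S.b c (D *ᵥ v0) ≠ 0 := fun h => S.D_ne hDE hD0 v0_ne (S.b_inj h)
  obtain ⟨x, hx⟩ : ∃ x, A.om (S.b c (D *ᵥ v0)) x ≠ 0 := by
    by_contra hcon
    push Not at hcon
    exact hne (A.om_nondeg hcon)
  let κ : ℚ := A.om (S.b c (D *ᵥ v0)) x
  let ρ : ℝ := κ⁻¹ • A.E (Complex.I • A.per (S.b c v0)) (A.per x)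
  have hmρ : ∀ f : ℝ →ₗ[ℚ] ℚ, m f = f ρ := by
    intro f
    change m f = f (κ⁻¹ • _)
    rw [map_smul, ← om_cmp, hcmp, map_smul, LinearMap.smul_apply, smul_eq_mul, smul_eq_mul]
    change m f = κ⁻¹ * (m f * κ)
    have hκ : κ ≠ 0 := hx
    field_simp
  have hI : Complex.I • A.per (S.b c v0) = ρ • A.per (S.b c (D *ᵥ v0)) := by
    rw [← sub_eq_zero]
    apply A.cmp_sep
    intro f
    rw [map_sub, hcmp, A.cmp_smul_per, hmρ, sub_self]
  refine ⟨⟨D, hD, hD0, hDE, ρ, ?_, fun f => by rw [hm, hmρ], hI⟩⟩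
  intro h0
  rw [h0, zero_smul] at hI
  have h1 : A.per (S.b c v0) = 0 := by
    have h2 := congrArg (fun u : Fin g → ℂ => Complex.I • u) hI
    simp only [smul_smul, Complex.I_mul_I, smul_zero] at h2
    rwa [neg_one_smul, neg_eq_zero] at h2
  have h3 : S.b c v0 = 0 := A.per_inj (by rw [h1, map_zero])
  exact v0_ne (S.b_inj h3)

variable {S}

namespace CMd

variable {c : C} (T : S.CMd c)

/-- the square root -/
def del : ℂ := Complex.I / (T.ρ : ℂ)

/-- the square -/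
def q : ℚ := sp T.D T.D / 2

theorem rho_ne : (T.ρ : ℂ) ≠ 0 := by
  exact_mod_cast T.hρ

theorem del_ne : T.del ≠ 0 := div_ne_zero Complex.I_ne_zero T.rho_ne

theorem per_D : A.per (S.b c (T.D *ᵥ v0)) = T.del • A.per (S.b c v0) := by
  have h1 := congrArg (fun u : Fin g → ℂ => ((T.ρ : ℂ)⁻¹) • u) T.I
  simp only [smul_smul] at h1
  have h2 : (T.ρ : ℂ)⁻¹ • T.ρ • A.per (S.b c (T.D *ᵥ v0)) = A.per (S.b c (T.D *ᵥ v0)) := by
    have h3 : T.ρ • A.per (S.b c (T.D *ᵥ v0)) = (T.ρ : ℂ) • A.per (S.b c (T.D *ᵥ v0)) := rfl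
    rw [h3, smul_smul, inv_mul_cancel₀ T.rho_ne, one_smul]
  rw [h2] at h1
  rw [← h1]
  unfold del
  congr 1
  rw [div_eq_mul_inv, mul_comm]

theorem DD : T.D * T.D = T.q • (1 : M2) := sq_scalar T.tr

theorem per_ne : A.per (S.b c v0) ≠ 0 := by
  intro h
  have h3 : S.b c v0 = 0 := A.per_inj (by rw [h, map_zero])
  exact v0_ne (S.b_inj h3)

theorem del_sq : T.del ^ 2 = T.q := by
  obtain ⟨F, hF⟩ := hodge_lin T.mem
  have h1 : F (A.per (S.b c v0)) = T.del • A.per (S.b c v0) := by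
    rw [← T.per_D]
    have h2 := hF (S.b c v0)
    rw [S.up_apply, S.pb] at h2
    exact h2
  have h2 : F (A.per (S.b c (T.D *ᵥ v0))) = (T.q : ℂ) • A.per (S.b c v0) := by
    have h3 := hF (S.b c (T.D *ᵥ v0))
    rw [S.up_apply, S.pb, Matrix.mulVec_mulVec, T.DD, Matrix.smul_mulVec, Matrix.one_mulVec,
      map_smul, map_smul] at h3
    rw [Rat.cast_smul_eq_qsmul ℂ]
    exact h3
  rw [T.per_D, map_smul, h1, smul_smul, ← pow_two] at h2
  have h4 : (T.del ^ 2 - (T.q : ℂ)) • A.per (S.b c v0) = 0 := by rw [sub_smul, h2, sub_self]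
  exact sub_eq_zero.1 ((smul_eq_zero.1 h4).resolve_right per_ne)

theorem irr : ¬ ∃ x : ℚ, T.del = x := by
  rintro ⟨x, hx⟩
  have h1 : Complex.I = (x : ℂ) * T.ρ := by
    rw [← hx]
    unfold del
    rw [div_mul_cancel₀ _ T.rho_ne]
  have h2 := congrArg Complex.im h1
  simp at h2

/-- Different components give independent square roots. -/
theorem indep {d : C} (T' : S.CMd d) (hcd : c ≠ d) : ¬ ∃ x : ℚ, T.del * T'.del = x := by
  rintro ⟨x, hx⟩
  have hq : (T.q : ℂ) ≠ 0 := by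
    rw [← T.del_sq]
    exact pow_ne_zero 2 T.del_ne
  have hq' : T.q ≠ 0 := by exact_mod_cast hq
  have hx0 : x ≠ 0 := by
    intro h0
    rw [h0, Rat.cast_zero] at hx
    exact mul_ne_zero T.del_ne T'.del_ne hx
  -- `del' = s * del`
  obtain ⟨s, hs0, hs⟩ : ∃ s : ℚ, s ≠ 0 ∧ T'.del = (s : ℂ) * T.del := by
    refine ⟨x / T.q, div_ne_zero hx0 hq', ?_⟩
    rw [Rat.cast_div, ← hx]
    field_simp
    rw [← T.del_sq]
  have hind : ∀ a : ℚ, T.D *ᵥ v0 ≠ a • v0 := by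
    intro a ha
    have h1 := T.per_D
    rw [ha, map_smul, map_smul, ← Rat.cast_smul_eq_qsmul ℂ] at h1
    have h2 : (T.del - (a : ℂ)) • A.per (S.b c v0) = 0 := by rw [sub_smul, ← h1, sub_self]
    exact T.irr ⟨a, sub_eq_zero.1 ((smul_eq_zero.1 h2).resolve_right per_ne)⟩
  -- the matrix
  obtain ⟨Q, hQ1, hQ2⟩ : ∃ Q : M2, Q *ᵥ v0 = v0 ∧ Q *ᵥ (T.D *ᵥ v0) = s⁻¹ • (T'.D *ᵥ v0) := by
    have hD := det_ne (v0_ne) hind
    have hli : LinearIndependent ℚ ![(v0 : Fin 2 → ℚ), T.D *ᵥ v0] := by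
      rw [LinearIndependent.pair_iff]
      intro α β hαβ
      have h0 := congrFun hαβ 0
      have h1 := congrFun hαβ 1
      simp only [Pi.add_apply, Pi.smul_apply, smul_eq_mul, Pi.zero_apply] at h0 h1
      have hβ : β = 0 := by
        have e1 : β * ((v0 : Fin 2 → ℚ) 0 * (T.D *ᵥ v0) 1 - (v0 : Fin 2 → ℚ) 1 * (T.D *ᵥ v0) 0)
            = 0 := by linear_combination (v0 : Fin 2 → ℚ) 0 * h1 - (v0 : Fin 2 → ℚ) 1 * h0
        exact (mul_eq_zero.1 e1).resolve_right hD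
      refine ⟨?_, hβ⟩
      rw [hβ, zero_mul, add_zero] at h0
      have : (v0 : Fin 2 → ℚ) 0 = 1 := by simp
      rw [this, mul_one] at h0
      exact h0
    obtain ⟨G, hG⟩ := exists_lin hli ![(v0 : Fin 2 → ℚ), s⁻¹ • (T'.D *ᵥ v0)]
    refine ⟨LinearMap.toMatrix' G, ?_, ?_⟩
    · rw [LinearMap.toMatrix'_mulVec]
      exact hG 0
    · rw [LinearMap.toMatrix'_mulVec]
      exact hG 1
  have hmem : ∃ F : (Fin g → ℂ) →ₗ[ℂ] (Fin g → ℂ), ∀ w, F (A.per w) = A.per (S.up c d Q w) := by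
    obtain ⟨F, hF⟩ := hodge_lin (S.mem c)
    obtain ⟨φ, hφ⟩ : ∃ φ : (Fin g → ℂ) →ₗ[ℂ] ℂ, φ (A.per (S.b c v0)) = 1 := by
      obtain ⟨G, hG⟩ := exists_lin (F := ℂ) (v := fun _ : Unit => A.per (S.b c v0)) (by
        rw [linearIndependent_unique_iff]
        exact per_ne) (fun _ => (1 : ℂ))
      exact ⟨G, hG ()⟩
    refine ⟨(LinearMap.toSpanSingleton ℂ _ (A.per (S.b d v0))) ∘ₗ φ ∘ₗ F, fun w => ?_⟩
    obtain ⟨α, β, e⟩ := exists_coord (v0_ne) hind (S.p c w)
    have h1 : F (A.per w) = ((α : ℂ) + (β : ℂ) * T.del) • A.per (S.b c v0) := by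
      rw [hF]
      change A.per (S.b c (S.p c w)) = _
      rw [e, map_add, map_smul, map_smul, map_add, map_smul, map_smul, T.per_D, add_smul,
        mul_smul, Rat.cast_smul_eq_qsmul ℂ, Rat.cast_smul_eq_qsmul ℂ]
    rw [LinearMap.comp_apply, LinearMap.comp_apply, h1, map_smul, hφ, S.up_apply, e,
      Matrix.mulVec_add, Matrix.mulVec_smul, Matrix.mulVec_smul, hQ1, hQ2, map_add, map_smul,
      map_smul, map_smul, map_add, map_smul, map_smul, map_smul, map_smul, T'.per_D, hs,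
      LinearMap.toSpanSingleton_apply, one_smul, ← Rat.cast_smul_eq_qsmul ℂ α,
      ← Rat.cast_smul_eq_qsmul ℂ β, ← Rat.cast_smul_eq_qsmul ℂ s⁻¹, smul_smul, smul_smul,
      ← add_smul]
    congr 1
    have hs' : (s : ℂ) ≠ 0 := by exact_mod_cast hs0
    push_cast
    field_simp
  have h1 := S.ho c d hcd Q hmem
  rw [h1, Matrix.zero_mulVec] at hQ1
  exact v0_ne hQ1.symm

end CMd

end PL

end Pool.Agent.R917.EC
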