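import Pool.Agent.R917.GL.Perf
import Pool.Agent.R917.GL.Cen

set_option autoImplicit false
set_option linter.unusedSectionVars false
set_option linter.unusedSimpArgs false

/-!
# Planes in the complex homology
-/

open Module Function TensorProduct Matrix

noncomputable section

namespace Pool.Agent.R917.GL

open Pool.Agent.Y102 Pool.Agent.W516.DR Pool.Agent.H204R3.GP Pool.Agent.W516.KC
  Pool.Agent.H204R3.SP Pool.Agent.TH119.MX Pool.Agent.R917.OM Pool.Agent.Y102.AbVar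

variable {g : ℕ} {A : AbVar g}

/-- The complex homology -/
abbrev HC (A : AbVar g) : Type := ℂ ⊗[ℚ] A.H1

/-- The endomorphisms of the complex homology -/
abbrev EC (A : AbVar g) : Type := Module.End ℂ (ℂ ⊗[ℚ] A.H1)

/-- commuting with the endomorphisms -/
def CC (X : EC A) : Prop := ∀ Q ∈ cx A.EA, X * Q = Q * X

theorem CC_of_cx {X : EC A} (hX : X ∈ cx A.NA) : CC X := by
  refine cx_comm fun Q hQ => ?_
  have h1 : ∀ Y ∈ cx A.NA, Q.baseChange ℂ * Y = Y * Q.baseChange ℂ := cx_comm fun Y hY => by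
    rw [← bc_mul, ← bc_mul, A.NA_comm hY hQ]
  exact (h1 X hX).symm

theorem CC.mul {X Y : EC A} (hX : CC X) (hY : CC Y) : CC (X * Y) := fun Q hQ => by
  rw [mul_assoc, hY Q hQ, ← mul_assoc, hX Q hQ, mul_assoc]

theorem CC.sub {X Y : EC A} (hX : CC X) (hY : CC Y) : CC (X - Y) := fun Q hQ => by
  rw [sub_mul, mul_sub, hX Q hQ, hY Q hQ]

theorem CC_of_Cm {X : Module.End ℚ A.H1} (hX : EC.EP.Cm X) : CC (X.baseChange ℂ) := by
  refine cx_comm fun Q hQ => ?_
  rw [← bc_mul, ← bc_mul, hX Q hQ]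

theorem mem_cx_EA {𝔥 : Submodule ℚ (Module.End ℚ A.H1)} (h : A.Full 𝔥) {T : EC A}
    (hT : ∀ X ∈ cx 𝔥, T * X = X * T) : T ∈ cx A.EA := by
  refine end_mem_span _ T fun lam => ?_
  intro X hX
  have h1 := h.cx_com T hT _ (bc_mem (A.LA_le_NA hX))
  exact (((comm_iff X T).2 h1) lam).symm

theorem lin_ext {Q Q' : M2} (h : ∀ v, Q *ᵥ v = Q' *ᵥ v) : Q = Q' := mat_ext h

/-- Planes in the complex homology. -/
structure CP (A : AbVar g) (K : Type) where
  b : K → (Fin 2 → ℂ) →ₗ[ℂ] (ℂ ⊗[ℚ] A.H1)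
  p : K → (ℂ ⊗[ℚ] A.H1) →ₗ[ℂ] (Fin 2 → ℂ)
  pb : ∀ k v, p k (b k v) = v
  mem : ∀ k, (b k ∘ₗ p k : EC A) ∈ cx A.EA
  N : Set K
  sc : ∀ k ∈ N, ∀ T ∈ A.EA, ∃ z : ℂ, ∀ v, p k (T.baseChange ℂ (b k v)) = z • v
  tzN : ∀ k ∈ N, ∀ X ∈ A.NA, tz (LinearMap.toMatrix' (p k ∘ₗ X.baseChange ℂ ∘ₗ b k))
  com : ∀ k, k ∉ N → ∀ X ∈ A.NA, ∀ Y ∈ A.NA, ∀ v, (X * Y - Y * X).baseChange ℂ (b k v) = 0

namespace CP

variable {K : Type} (S : CP A K)

theorem b_inj {k : K} {v : Fin 2 → ℂ} (h : S.b k v = 0) : v = 0 := by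
  rw [← S.pb k v, h, map_zero]

/-- The matrices of an endomorphism. -/
def xi : EC A →ₗ[ℂ] (K → M2) where
  toFun X c := LinearMap.toMatrix' (S.p c ∘ₗ X ∘ₗ S.b c)
  map_add' X Y := by
    funext c
    rw [Pi.add_apply, ← map_add]
    congr 1
    ext v
    simp
  map_smul' a X := by
    funext c
    rw [Pi.smul_apply, RingHom.id_apply, ← map_smul]
    congr 1
    ext v
    simp

theorem xi_mulVec (X : EC A) (c : K) (v : Fin 2 → ℂ) :
    S.xi X c *ᵥ v = S.p c (X (S.b c v)) :=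
  LinearMap.toMatrix'_mulVec (S.p c ∘ₗ X ∘ₗ S.b c) v

/-- the projector -/
def pr (k : K) : EC A := S.b k ∘ₗ S.p k

theorem pr_apply (k : K) (v : HC A) : S.pr k v = S.b k (S.p k v) := rfl

theorem pr_mem (k : K) : S.pr k ∈ cx A.EA := S.mem k

variable {X Y : EC A}

theorem apply_b (hX : CC X) (c : K) (v : Fin 2 → ℂ) : X (S.b c v) = S.b c (S.xi X c *ᵥ v) := by
  have h1 := congrArg (fun T : EC A => T (S.b c v)) (hX _ (S.mem c))
  simp only [Module.End.mul_apply, LinearMap.comp_apply] at h1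
  rw [S.pb] at h1
  rw [xi_mulVec]
  exact h1

theorem p_apply (hX : CC X) (c : K) (w : HC A) : S.p c (X w) = S.xi X c *ᵥ S.p c w := by
  have h1 := congrArg (fun T : EC A => T w) (hX _ (S.mem c))
  simp only [Module.End.mul_apply, LinearMap.comp_apply] at h1
  have h2 := congrArg (S.p c) h1
  rw [S.pb] at h2
  rw [← h2, xi_mulVec]

theorem xi_mul (hX : CC X) (hY : CC Y) (c : K) : S.xi (X * Y) c = S.xi X c * S.xi Y c := by
  refine mat_ext fun v => ?_
  rw [← Matrix.mulVec_mulVec, xi_mulVec, Module.End.mul_apply, S.apply_b hY, S.p_apply hX, S.pb]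

theorem xi_lb (hX : CC X) (hY : CC Y) (c : K) :
    S.xi (X * Y - Y * X) c = lb (S.xi X c) (S.xi Y c) := by
  rw [map_sub, Pi.sub_apply, S.xi_mul hX hY, S.xi_mul hY hX]
  rfl

/-- the extension of a matrix -/
def up (c d : K) (Q : M2) : EC A := S.b d ∘ₗ Matrix.toLin' Q ∘ₗ S.p c

theorem up_apply (c d : K) (Q : M2) (v : HC A) : S.up c d Q v = S.b d (Q *ᵥ S.p c v) := rfl

theorem up_comm {c d : K} {P : M2} (hX : CC X)
    (h : P * S.xi X c = S.xi X d * P) : S.up c d P * X = X * S.up c d P := by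
  refine LinearMap.ext fun v => ?_
  rw [Module.End.mul_apply, Module.End.mul_apply, up_apply, up_apply, S.apply_b hX, S.p_apply hX,
    Matrix.mulVec_mulVec, Matrix.mulVec_mulVec, h]

theorem up_mem {𝔥 : Submodule ℚ (Module.End ℚ A.H1)} (h : A.Full 𝔥) {c d : K} {P : M2}
    (hP : ∀ X ∈ cx 𝔥, P * S.xi X c = S.xi X d * P) : S.up c d P ∈ cx A.EA :=
  mem_cx_EA h fun X hX => S.up_comm (CC_of_cx (cx_mono h.le hX)) (hP X hX)

theorem xi_tz {k : K} (hk : k ∈ S.N) (hX : X ∈ cx A.NA) : tz (S.xi X k) := by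
  induction hX using Submodule.span_induction with
  | mem X hX =>
    obtain ⟨P, hP, rfl⟩ := hX
    exact S.tzN k hk P hP
  | zero =>
    rw [map_zero]
    simp [tz]
  | add a b _ _ ha hb =>
    unfold tz at ha hb ⊢
    rw [map_add, Pi.add_apply, Matrix.add_apply, Matrix.add_apply, ha, hb]
    ring
  | smul c a _ ha =>
    unfold tz at ha ⊢
    rw [map_smul, Pi.smul_apply, Matrix.smul_apply, Matrix.smul_apply, ha, smul_neg]

theorem sc_cx {k : K} (hk : k ∈ S.N) {T : EC A} (hT : T ∈ cx A.EA) :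
    ∃ z : ℂ, ∀ v, S.p k (T (S.b k v)) = z • v := by
  induction hT using Submodule.span_induction with
  | mem X hX =>
    obtain ⟨P, hP, rfl⟩ := hX
    exact S.sc k hk P hP
  | zero => exact ⟨0, fun v => by rw [LinearMap.zero_apply, map_zero, zero_smul]⟩
  | add a b _ _ ha hb =>
    obtain ⟨z, hz⟩ := ha
    obtain ⟨w, hw⟩ := hb
    exact ⟨z + w, fun v => by rw [LinearMap.add_apply, map_add, hz, hw, add_smul]⟩
  | smul c a _ ha =>
    obtain ⟨z, hz⟩ := ha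
    exact ⟨c * z, fun v => by rw [LinearMap.smul_apply, map_smul, hz, mul_smul]⟩

theorem sc_mat {𝔥 : Submodule ℚ (Module.End ℚ A.H1)} (h : A.Full 𝔥) {k : K} (hk : k ∈ S.N)
    {Q : M2} (hQ : ∀ X ∈ cx 𝔥, Q * S.xi X k = S.xi X k * Q) : ∃ z : ℂ, Q = z • (1 : M2) := by
  obtain ⟨z, hz⟩ := S.sc_cx hk (S.up_mem h hQ)
  refine ⟨z, mat_ext fun v => ?_⟩
  have h1 := hz v
  rw [up_apply, S.pb, S.pb] at h1
  rw [h1, Matrix.smul_mulVec, Matrix.one_mulVec]

theorem lb_com {k : K} (hk : k ∉ S.N) (hX : X ∈ cx A.NA) (hY : Y ∈ cx A.NA) :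
    (X * Y - Y * X) * S.pr k = 0 := by
  let T : Submodule ℂ (EC A) := LinearMap.ker (LinearMap.mulRight ℂ (S.pr k))
  have hT : ∀ Z, Z ∈ T ↔ Z * S.pr k = 0 := fun Z => Iff.rfl
  rw [← hT]
  refine cx_br (fun P hP Q hQ => ?_) X hX Y hY
  rw [hT, ← bc_br]
  refine LinearMap.ext fun v => ?_
  rw [Module.End.mul_apply, pr_apply, S.com k hk P hP Q hQ, LinearMap.zero_apply]

theorem xi_com {k : K} (hk : k ∉ S.N) (hX : X ∈ cx A.NA) (hY : Y ∈ cx A.NA) :
    S.xi (X * Y - Y * X) k = 0 := by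
  refine mat_ext fun v => ?_
  rw [xi_mulVec, Matrix.zero_mulVec]
  have h1 := congrArg (fun T : EC A => T (S.b k v)) (S.lb_com hk hX hY)
  rw [Module.End.mul_apply, pr_apply, S.pb, LinearMap.zero_apply] at h1
  rw [h1, map_zero]

/-- **The image in one plane.** -/
theorem su {𝔥 : Submodule ℚ (Module.End ℚ A.H1)} (h : A.Full 𝔥) {k : K} (hk : k ∈ S.N) {x : M2}
    (hx : tz x) : ∃ X ∈ cx 𝔥, S.xi X k = x := by
  let V : Submodule ℂ M2 := (cx (der 𝔥)).map ((LinearMap.proj k : (K → M2) →ₗ[ℂ] M2) ∘ₗ S.xi)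
  have hVm : ∀ X ∈ cx (der 𝔥), S.xi X k ∈ V := fun X hX => ⟨X, hX, rfl⟩
  have hle : cx (der 𝔥) ≤ cx A.NA := cx_mono (h.der_le.trans h.le)
  have hC : ∀ X ∈ cx (der 𝔥), CC X := fun X hX => CC_of_cx (hle hX)
  have hbr : ∀ X ∈ cx (der 𝔥), ∀ Y ∈ cx (der 𝔥), X * Y - Y * X ∈ cx (der 𝔥) :=
    cx_br fun P hP Q hQ => by
      rw [← bc_br]
      exact bc_mem (Submodule.subset_span ⟨P, h.der_le hP, Q, h.der_le hQ, rfl⟩)
  have key : x ∈ V := by
    refine perf_top (V := V) ?_ ?_ ?_ ?_ hx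
    · rintro _ ⟨X, hX, rfl⟩
      exact S.xi_tz hk (hle hX)
    · rintro _ ⟨X, hX, rfl⟩ _ ⟨Y, hY, rfl⟩
      exact ⟨_, hbr X hX Y hY, S.xi_lb (hC X hX) (hC Y hY) k⟩
    · rintro _ ⟨X, hX, rfl⟩
      have h1 := h.cx_perfect hX
      have h2 : S.xi X k ∈ (Submodule.span ℂ {Z | ∃ X ∈ cx (der 𝔥), ∃ Y ∈ cx (der 𝔥),
          Z = X * Y - Y * X}).map ((LinearMap.proj k : (K → M2) →ₗ[ℂ] M2) ∘ₗ S.xi) := ⟨X, h1, rfl⟩
      rw [Submodule.map_span] at h2
      refine Submodule.span_mono ?_ h2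
      rintro _ ⟨_, ⟨P, hP, Q, hQ, rfl⟩, rfl⟩
      exact ⟨_, hVm P hP, _, hVm Q hQ, S.xi_lb (hC P hP) (hC Q hQ) k⟩
    · by_contra hcon
      push Not at hcon
      have h0 : ∀ X ∈ cx (der 𝔥), S.xi X k = 0 := fun X hX => hcon _ (hVm X hX)
      have h1 : ∀ X ∈ cx 𝔥, S.xi X k = 0 := by
        intro X hX
        obtain ⟨Z, hZ, d, hd, e1, e2⟩ := h.cx_dec X hX
        have hZN := cx_mono h.le hZ
        have h3 : S.xi Z k = 0 := by
          obtain ⟨z, hz⟩ := S.sc_mat h hk (Q := S.xi Z k) (fun Y hY => by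
            rw [← S.xi_mul (CC_of_cx hZN) (CC_of_cx (cx_mono h.le hY)),
              ← S.xi_mul (CC_of_cx (cx_mono h.le hY)) (CC_of_cx hZN), e2 Y hY])
          exact tz_of_scalar (S.xi_tz hk hZN) hz
        rw [e1, map_add, Pi.add_apply, h3, h0 d hd, add_zero]
      obtain ⟨z, hz⟩ := S.sc_mat h hk (Q := E) (fun Y hY => by
        rw [h1 Y hY, mul_zero, zero_mul])
      exact E_ne (tz_of_scalar tz_E hz)
  obtain ⟨X, hX, h1⟩ := key
  exact ⟨X, cx_mono h.der_le hX, h1⟩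

end CP

/-- A subspace stable under the nilpotent matrices. -/
theorem irr2 {W : Submodule ℂ (Fin 2 → ℂ)} (hE : ∀ v ∈ W, E *ᵥ v ∈ W) (hF : ∀ v ∈ W, F *ᵥ v ∈ W)
    {v : Fin 2 → ℂ} (hv : v ∈ W) (hv0 : v ≠ 0) (w : Fin 2 → ℂ) : w ∈ W := by
  have e1 : ∀ u : Fin 2 → ℂ, E *ᵥ u = ![u 1, 0] := by
    intro u
    ext i
    fin_cases i <;> simp [E, Matrix.mulVec, dotProduct, Fin.sum_univ_two]
  have e2 : ∀ u : Fin 2 → ℂ, F *ᵥ u = ![0, u 0] := by
    intro u
    ext i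
    fin_cases i <;> simp [F, Matrix.mulVec, dotProduct, Fin.sum_univ_two]
  have key : ![(1 : ℂ), 0] ∈ W ∧ ![(0 : ℂ), 1] ∈ W := by
    by_cases h1 : v 1 = 0
    · have h0 : v 0 ≠ 0 := by
        intro h0
        apply hv0
        ext i
        fin_cases i
        · exact h0
        · exact h1
      have h2 := hF v hv
      rw [e2] at h2
      have h3 : ![(0 : ℂ), 1] ∈ W := by
        have h4 := W.smul_mem (v 0)⁻¹ h2
        convert h4 using 1
        ext i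
        fin_cases i <;> simp [h0]
      have h5 := hE _ h3
      rw [e1] at h5
      exact ⟨by simpa using h5, h3⟩
    · have h2 := hE v hv
      rw [e1] at h2
      have h3 : ![(1 : ℂ), 0] ∈ W := by
        have h4 := W.smul_mem (v 1)⁻¹ h2
        convert h4 using 1
        ext i
        fin_cases i <;> simp [h1]
      have h5 := hF _ h3
      rw [e2] at h5
      exact ⟨h3, by simpa using h5⟩
  have h1 := W.add_mem (W.smul_mem (w 0) key.1) (W.smul_mem (w 1) key.2)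
  convert h1 using 1
  ext i
  fin_cases i <;> simp

namespace CP

variable {K : Type} (S : CP A K) {X : EC A}

theorem pr_pr (k : K) : S.pr k * S.pr k = S.pr k := by
  refine LinearMap.ext fun v => ?_
  rw [Module.End.mul_apply, pr_apply, pr_apply, S.pb]

theorem mul_pr_eq (hX : CC X) {k : K} (h : S.xi X k = 0) : X * S.pr k = 0 := by
  refine LinearMap.ext fun v => ?_
  rw [Module.End.mul_apply, pr_apply, S.apply_b hX, h, Matrix.zero_mulVec, map_zero,
    LinearMap.zero_apply]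

theorem xi_eq_of_mul_pr {k : K} (h : X * S.pr k = 0) : S.xi X k = 0 := by
  refine mat_ext fun v => ?_
  have h1 := congrArg (fun T : EC A => T (S.b k v)) h
  rw [Module.End.mul_apply, pr_apply, S.pb, LinearMap.zero_apply] at h1
  rw [xi_mulVec, h1, map_zero, Matrix.zero_mulVec]

/-- An endomorphism which vanishes on one plane vanishes on isomorphic planes, first case. -/
theorem step1 {k : K} (hk : k ∈ S.N) (hX : CC X) {T : EC A} (hT : T ∈ cx A.EA)
    (hT0 : T * S.pr k ≠ 0) (h : X * T * S.pr k = 0) : X * S.pr k = 0 := by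
  let W : Submodule ℂ (Fin 2 → ℂ) := LinearMap.ker (T ∘ₗ S.b k)
  have hW : ∀ v, v ∈ W ↔ T (S.b k v) = 0 := fun v => Iff.rfl
  have hst : ∀ Y ∈ cx A.NA, ∀ v ∈ W, S.xi Y k *ᵥ v ∈ W := by
    intro Y hY v hv
    rw [hW] at hv ⊢
    rw [← S.apply_b (CC_of_cx hY)]
    have h1 := congrArg (fun Z : EC A => Z (S.b k v)) (CC_of_cx hY T hT)
    simp only [Module.End.mul_apply] at h1
    rw [← h1, hv, map_zero]
  have hE : ∀ v ∈ W, E *ᵥ v ∈ W := by
    intro v hv
    obtain ⟨Y, hY, h1⟩ := S.su EC.full_NA hk tz_E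
    rw [← h1]
    exact hst Y hY v hv
  have hF : ∀ v ∈ W, F *ᵥ v ∈ W := by
    intro v hv
    obtain ⟨Y, hY, h1⟩ := S.su EC.full_NA hk tz_F
    rw [← h1]
    exact hst Y hY v hv
  refine S.mul_pr_eq hX (mat_ext fun v => ?_)
  rw [Matrix.zero_mulVec]
  by_contra hne
  have h2 : S.xi X k *ᵥ v ∈ W := by
    rw [hW, ← S.apply_b hX]
    have h1 := congrArg (fun Z : EC A => Z (S.b k v)) (hX T hT)
    simp only [Module.End.mul_apply] at h1
    rw [← h1]
    have h3 := congrArg (fun Z : EC A => Z (S.b k v)) h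
    simp only [Module.End.mul_apply, LinearMap.zero_apply] at h3
    rw [pr_apply, S.pb] at h3
    exact h3
  apply hT0
  refine LinearMap.ext fun w => ?_
  rw [Module.End.mul_apply, pr_apply, LinearMap.zero_apply]
  exact (hW _).1 (irr2 hE hF h2 hne (S.p k w))

/-- An endomorphism which vanishes on one plane vanishes on isomorphic planes, second case. -/
theorem step2 {k : K} (hk : k ∈ S.N) (hX : CC X) {T : EC A} (hT : T ∈ cx A.EA)
    (hT0 : S.pr k * T ≠ 0) (h : X * T = 0) : X * S.pr k = 0 := by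
  have hXP : X * (S.pr k * T) = 0 := by
    rw [← mul_assoc, hX _ (S.pr_mem k), mul_assoc, h, mul_zero]
  have hPT : S.pr k * T ∈ cx A.EA := by
    have h1 : ∀ P ∈ cx A.EA, ∀ Q ∈ cx A.EA, P * Q ∈ cx A.EA := by
      intro P hP Q hQ
      refine mem_cx_EA EC.full_NA fun Y hY => ?_
      have e1 := CC_of_cx hY P hP
      have e2 := CC_of_cx hY Q hQ
      rw [mul_assoc, ← e2, ← mul_assoc, ← e1, mul_assoc]
    exact h1 _ (S.pr_mem k) _ hT
  let W : Submodule ℂ (Fin 2 → ℂ) := LinearMap.range (S.p k ∘ₗ (S.pr k * T : EC A))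
  have hW : ∀ v, v ∈ W ↔ ∃ w, S.p k ((S.pr k * T) w) = v := fun v => Iff.rfl
  have hst : ∀ Y ∈ cx A.NA, ∀ v ∈ W, S.xi Y k *ᵥ v ∈ W := by
    rintro Y hY _ ⟨w, rfl⟩
    rw [hW]
    refine ⟨Y w, ?_⟩
    have h1 := congrArg (fun Z : EC A => S.p k (Z w)) (CC_of_cx hY _ hPT)
    simp only [Module.End.mul_apply] at h1
    rw [S.p_apply (CC_of_cx hY)] at h1
    exact h1.symm
  have hE : ∀ v ∈ W, E *ᵥ v ∈ W := by
    intro v hv
    obtain ⟨Y, hY, h1⟩ := S.su EC.full_NA hk tz_E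
    rw [← h1]
    exact hst Y hY v hv
  have hF : ∀ v ∈ W, F *ᵥ v ∈ W := by
    intro v hv
    obtain ⟨Y, hY, h1⟩ := S.su EC.full_NA hk tz_F
    rw [← h1]
    exact hst Y hY v hv
  obtain ⟨w, hw⟩ : ∃ w, (S.pr k * T) w ≠ 0 := by
    by_contra hcon
    push Not at hcon
    exact hT0 (LinearMap.ext hcon)
  have hw2 : S.p k ((S.pr k * T) w) ≠ 0 := by
    intro h1
    apply hw
    rw [Module.End.mul_apply, pr_apply] at h1 ⊢
    rw [S.pb] at h1
    rw [h1, map_zero]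
  refine LinearMap.ext fun u => ?_
  rw [Module.End.mul_apply, pr_apply, LinearMap.zero_apply]
  obtain ⟨w', hw'⟩ := irr2 hE hF ⟨w, rfl⟩ hw2 (S.p k u)
  change S.p k ((S.pr k * T) w') = _ at hw'
  have h3 : S.b k (S.p k ((S.pr k * T) w')) = (S.pr k * T) w' := by
    rw [← pr_apply, Module.End.mul_apply]
    exact congrArg (fun Z : EC A => Z (T w')) (S.pr_pr k)
  rw [← hw', h3]
  exact congrArg (fun Z : EC A => Z w') hXP

end CP

end Pool.Agent.R917.GL
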